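import Pool.Agent.Y264.QR.Stm2
import Pool.Agent.Y262.QE.Main

/-!
# Project QR: the theorem from its parts
-/

set_option autoImplicit false

open Set Filter Topology MeasureTheory
open scoped Real ContDiff
open Pool.Agent.Y262.QE

noncomputable section

namespace Pool.Agent.Y264.QR

theorem kap_eq {M : Type} [MetricSpace M] [CompactSpace M] [MeasurableSpace M] [BorelSpace M]
    (μ : Measure M) {H : Type} [NormedAddCommGroup H] [InnerProductSpace ℝ H]
    (i : H →L[ℝ] Lp ℝ 2 μ) (f φ : C(M, ℝ)) (v : H) (u : M → ℝ) (h : (i v : M → ℝ) =ᵐ[μ] u) :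
    kap μ i f φ v = ∫ x, f x * (u x) ^ 2 ∂(wm μ fun x => Real.exp (φ x)) := by
  have hm : Measurable fun x => Real.exp (φ x) :=
    (Real.continuous_exp.comp φ.continuous).measurable
  rw [integral_wm μ _ hm (fun x => (Real.exp_pos _).le)]
  unfold kap
  refine integral_congr_ae ?_
  filter_upwards [h] with x hx
  rw [hx]
  ring

theorem avg_eq {M : Type} [MetricSpace M] [CompactSpace M] [MeasurableSpace M] [BorelSpace M]
    (μ : Measure M) (f φ : C(M, ℝ)) :
    avg μ f φ = (∫ x, f x ∂(wm μ fun x => Real.exp (φ x))) /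
      (wm μ fun x => Real.exp (φ x)).real univ := by
  have hm : Measurable fun x => Real.exp (φ x) :=
    (Real.continuous_exp.comp φ.continuous).measurable
  have h0 : ∀ x, 0 ≤ Real.exp (φ x) := fun x => (Real.exp_pos _).le
  have h5 : (wm μ fun x => Real.exp (φ x)).real univ =
      ∫ x, (1 : ℝ) ∂(wm μ fun x => Real.exp (φ x)) := by simp
  rw [h5, integral_wm μ _ hm h0, integral_wm μ _ hm h0]
  unfold avg
  simp only [mul_one]
  congr 1
  exact integral_congr_ae (Eventually.of_forall fun x => mul_comm _ _)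

theorem top (hFin : StFin) (hFm : StFm) (hPack : StPackF) (hBr : StBr) (hWl : StWl)
    (hAbs : StAbs) : StTop := by
  intro M _ _ _ _ _ μ D hD _ _ P _ S hS hP u lam hu
  obtain ⟨hf, -⟩ := hFin M μ D hD
  haveI := hf
  obtain ⟨i, a, hSf, hi, ha⟩ := hPack M μ D hD inferInstance
  obtain ⟨b, hB, hF, -, -, -⟩ := hFm M μ (HF D μ) i a hSf
  have hW := hWl M μ D hD inferInstance i a b hSf hi ha hB
  choose e he1 he2 using fun φ => hBr M μ D hD i a b hSf hi ha hB hF φ (u φ) (lam φ) (hu φ)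
  obtain ⟨⟨J, hJ⟩, hA⟩ := hAbs M μ (HF D μ) i a b hSf hB hW e lam he2 P S hS hP
  have hk : ∀ (f φ : C(M, ℝ)) (j : ℕ), kap μ i f φ (e φ j) =
      ∫ x, f x * (u φ j x) ^ 2 ∂(wm μ fun x => Real.exp (φ x)) := fun f φ j =>
    kap_eq μ i f φ _ _ (he1 φ j)
  refine ⟨⟨J, fun f j hj => ?_⟩, fun f => ?_⟩
  · have := hJ f j hj
    simpa only [hk] using this
  · obtain ⟨h1, h2⟩ := hA f
    simp only [hk, avg_eq] at h1 h2
    exact ⟨h1, h2⟩

end Pool.Agent.Y264.QR
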