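import Pool.Agent.Y264.QR.DenF

/-!
# Project QR: the form domain of a surface

(Adapted from helper291's file for odd functions.)
-/

set_option autoImplicit false

open Set Filter Topology MeasureTheory
open scoped Real ContDiff ComplexConjugate

noncomputable section

namespace Pool.Agent.Y264.QR

open Pool.Agent.Y262.QE

section forms

variable {M : Type} [MetricSpace M] [MeasurableSpace M] (D : Data M) (μ : Measure M)

/-- the inclusion in `L²` -/
def ii : HF D μ →L[ℝ] Lp ℝ 2 μ :=
  (WithLp.fstL 2 ℝ (Lp ℝ 2 μ) (Lp ℂ 2 μ)).comp (HF D μ).subtypeL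

/-- the gradient -/
def gg : HF D μ →L[ℝ] Lp ℂ 2 μ :=
  (WithLp.sndL 2 ℝ (Lp ℝ 2 μ) (Lp ℂ 2 μ)).comp (HF D μ).subtypeL

/-- the Dirichlet form -/
def aa : HF D μ →L[ℝ] HF D μ →L[ℝ] ℝ :=
  (innerSL ℝ (E := Lp ℂ 2 μ)).bilinearComp (gg D μ) (gg D μ)

lemma ii_apply (v : HF D μ) : ii D μ v = v.1.fst := rfl

lemma gg_apply (v : HF D μ) : gg D μ v = v.1.snd := rfl

lemma aa_apply (u v : HF D μ) : aa D μ u v = inner ℝ u.1.snd v.1.snd := rfl

lemma nrm (v : HF D μ) : ‖v‖ ^ 2 = aa D μ v v + ‖ii D μ v‖ ^ 2 := by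
  have h := WithLp.prod_norm_sq_eq_of_L2 v.1
  have h1 : ‖v‖ = ‖v.1‖ := rfl
  rw [h1, h, aa_apply, ii_apply, real_inner_self_eq_norm_sq]
  ring

lemma dens [CompactSpace M] [BorelSpace M] (hDen : StDenF) {D : Data M} {μ : Measure M}
    (hD : D.IsSurf μ)
    {P : HF D μ → Prop} (hc : IsClosed {v | P v})
    (h : ∀ (v : HF D μ) (F : M → ℝ), D.C1 F →
      (v.1.fst : M → ℝ) =ᵐ[μ] F → (v.1.snd : M → ℂ) =ᵐ[μ] D.gr F → P v) : ∀ v, P v := by
  intro v
  obtain ⟨F, f, hf, hlim⟩ := (hDen M μ D hD).2 v.1 v.2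
  have h1 : Tendsto (fun k => (⟨f k, (hf k).2.1⟩ : HF D μ)) atTop (𝓝 v) := by
    rw [tendsto_subtype_rng]
    exact hlim
  exact hc.mem_of_tendsto h1 (Eventually.of_forall fun k =>
    h _ (F k) (hf k).1 (hf k).2.2.1 (hf k).2.2.2)

omit [MetricSpace M] in
lemma inn (μ : Measure M) (u v : Lp ℝ 2 μ) : inner ℝ u v = ∫ x, u x * v x ∂μ := by
  rw [L2.inner_def]
  refine integral_congr_ae (Eventually.of_forall fun x => ?_)
  simp [mul_comm]

omit [MetricSpace M] in
lemma nsq (μ : Measure M) (u : Lp ℝ 2 μ) : ‖u‖ ^ 2 = ∫ x, (u x) ^ 2 ∂μ := by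
  rw [← real_inner_self_eq_norm_sq, inn]
  refine integral_congr_ae (Eventually.of_forall fun x => ?_)
  simp only
  ring

omit [MetricSpace M] in
lemma innC (μ : Measure M) (u v : Lp ℂ 2 μ) : inner ℝ u v = ∫ x, inner ℝ (u x) (v x) ∂μ := by
  rw [L2.inner_def]

end forms

/-- a subspace of infinite dimension contains an orthonormal sequence -/
theorem ortho {H K : Type} [NormedAddCommGroup H] [InnerProductSpace ℝ H]
    [NormedAddCommGroup K] [InnerProductSpace ℝ K] (i : H →L[ℝ] K)
    (h : ∀ n : ℕ, ∃ v : Fin n → H, LinearIndependent ℝ (fun m => i (v m))) :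
    ∃ e : ℕ → H, ∀ m m', inner ℝ (i (e m)) (i (e m')) = if m = m' then (1 : ℝ) else 0 := by
  -- the range has infinite dimension
  set R : Submodule ℝ K := LinearMap.range (i : H →ₗ[ℝ] K) with hR
  have hinf : ¬ FiniteDimensional ℝ R := by
    intro hfd
    obtain ⟨v, hv⟩ := h (Module.finrank ℝ R + 1)
    have h2 : LinearIndependent ℝ (fun m => (⟨i (v m), ⟨v m, rfl⟩⟩ : R)) := by
      refine LinearIndependent.of_comp R.subtype ?_
      exact hv
    have h3 := h2.fintype_card_le_finrank
    rw [Fintype.card_fin] at h3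
    omega
  set B := Module.Basis.ofVectorSpace ℝ R with hB
  have hBi : Infinite (Module.Basis.ofVectorSpaceIndex ℝ R) := by
    by_contra hcon
    rw [not_infinite_iff_finite] at hcon
    exact hinf (Module.Finite.of_basis B)
  let emb : ℕ ↪ Module.Basis.ofVectorSpaceIndex ℝ R := Infinite.natEmbedding _
  have hli : LinearIndependent ℝ (fun n : ℕ => ((B (emb n) : R) : K)) := by
    have h1 : LinearIndependent ℝ (fun n : ℕ => B (emb n)) :=
      B.linearIndependent.comp emb emb.injective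
    exact h1.map' R.subtype (Submodule.ker_subtype R)
  have ho := InnerProductSpace.gramSchmidtNormed_orthonormal hli
  have hmem : ∀ n, InnerProductSpace.gramSchmidtNormed ℝ
      (fun n : ℕ => ((B (emb n) : R) : K)) n ∈ R := by
    intro n
    have h1 := InnerProductSpace.gramSchmidt_mem_span ℝ
      (fun n : ℕ => ((B (emb n) : R) : K)) (le_refl n)
    have h2 : Submodule.span ℝ ((fun n : ℕ => ((B (emb n) : R) : K)) '' Iic n) ≤ R := by
      rw [Submodule.span_le]
      rintro _ ⟨m, -, rfl⟩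
      exact (B (emb m)).2
    exact R.smul_mem _ (h2 h1)
  choose e he using hmem
  refine ⟨e, fun m m' => ?_⟩
  have h1 : ∀ m, i (e m) = InnerProductSpace.gramSchmidtNormed ℝ
      (fun n : ℕ => ((B (emb n) : R) : K)) m := fun m => he m
  rw [h1, h1]
  exact orthonormal_iff_ite.1 ho m m'

theorem packF : StFin → StW → StDenF → StUp → StPackF := by
  intro hFin hW hDen hUp M _ _ _ _ μ D hD hM
  obtain ⟨hfin, hpos⟩ := hFin M μ D hD
  haveI := hfin
  refine ⟨ii D μ, aa D μ, ?_, fun v => rfl, fun u v => rfl⟩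
  refine ⟨fun u v => ?_, fun v => ?_, fun v => nrm D μ v, ?_, ?_⟩
  · rw [aa_apply, aa_apply, real_inner_comm]
  · rw [aa_apply]
    exact real_inner_self_nonneg
  · obtain ⟨C, hCW⟩ := hW M μ D hD
    refine ⟨C, fun ε h0 h1 => ?_⟩
    obtain ⟨N, κ, hN, hκ, hineq⟩ := hCW ε h0 h1
    refine ⟨N, fun j => (innerSL ℝ ((hκ j).toLp (κ j))).comp (ii D μ), hN, ?_⟩
    refine dens hDen hD (P := fun v => ‖ii D μ v‖ ^ 2 ≤ ε * aa D μ v v +
      ∑ j, ((innerSL ℝ ((hκ j).toLp (κ j))).comp (ii D μ) v) ^ 2) ?_ ?_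
    · refine isClosed_le (by fun_prop) ?_
      refine Continuous.add ?_ ?_
      · refine continuous_const.mul ?_
        simp only [aa_apply]
        exact (WithLp.sndL 2 ℝ (Lp ℝ 2 μ) (Lp ℂ 2 μ)).continuous.comp continuous_subtype_val
          |>.inner ((WithLp.sndL 2 ℝ (Lp ℝ 2 μ) (Lp ℂ 2 μ)).continuous.comp
            continuous_subtype_val)
      · fun_prop
    · intro v F hF hf hs
      have e1 : ‖ii D μ v‖ ^ 2 = ∫ x, (F x) ^ 2 ∂μ := by
        rw [nsq]
        refine integral_congr_ae ?_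
        filter_upwards [hf] with x hx
        rw [ii_apply, hx]
      have e2 : aa D μ v v = ∫ x, ‖D.gr F x‖ ^ 2 ∂μ := by
        rw [aa_apply, innC]
        refine integral_congr_ae ?_
        filter_upwards [hs] with x hx
        rw [hx, real_inner_self_eq_norm_sq]
      have e3 : ∀ j, ((innerSL ℝ ((hκ j).toLp (κ j))).comp (ii D μ) v) =
          ∫ x, F x * κ j x ∂μ := by
        intro j
        rw [ContinuousLinearMap.comp_apply, innerSL_apply_apply, inn]
        refine integral_congr_ae ?_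
        filter_upwards [hf, (hκ j).coeFn_toLp] with x hx hx'
        rw [ii_apply, hx, hx', mul_comm]
      simp only [e1, e2, e3]
      exact hineq F hF
  · -- infinite rank
    refine ortho (ii D μ) fun n => ?_
    have hA : 0 < ∫ x, Real.exp ((0 : C(M, ℝ)) x) ∂μ := by
      have h1 : (fun x => Real.exp ((0 : C(M, ℝ)) x)) = fun _ : M => (1 : ℝ) := by
        funext x
        simp
      rw [h1, integral_const, smul_eq_mul, mul_one]
      have := hpos univ isOpen_univ univ_nonempty
      exact ENNReal.toReal_pos this.ne' (measure_ne_top _ _)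
    set A := ∫ x, Real.exp ((0 : C(M, ℝ)) x) ∂μ with hAdef
    obtain ⟨Λ₀, hΛ⟩ := hUp M μ D hD hM 0 (1 / 2) (by norm_num)
    obtain ⟨N, F, δ, hN, hC1, hδ, hF⟩ := hΛ (max Λ₀ (8 * π * n / A)) (le_max_left _ _)
    have hNn : n ≤ N := by
      have h1 : (n : ℝ) ≤ N := by
        refine le_trans ?_ hN
        have h2 : 8 * π * n / A ≤ max Λ₀ (8 * π * n / A) := le_max_right _ _
        have h3 : (n : ℝ) = (1 - 1 / 2) * (8 * π * n / A) * A / (4 * π) := by
          have := Real.pi_pos.ne'
          field_simp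
          ring
        refine h3.le.trans ?_
        have h4 := Real.pi_pos
        refine div_le_div_of_nonneg_right ?_ (by positivity)
        refine mul_le_mul_of_nonneg_right ?_ hA.le
        exact mul_le_mul_of_nonneg_left h2 (by norm_num)
      exact_mod_cast h1
    choose p hp hp1 hp2 using fun m => (hDen M μ D hD).1 (F m) (hC1 m)
    have hli : LinearIndependent ℝ (fun m : Fin N => ii D μ ⟨p m, hp m⟩) := by
      rw [Fintype.linearIndependent_iff]
      intro c hc m
      have h1 : (fun x => ∑ m, c m * F m x) =ᵐ[μ] 0 := by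
        have h2 : ((∑ m, c m • ii D μ ⟨p m, hp m⟩ : Lp ℝ 2 μ) : M → ℝ) =ᵐ[μ]
            fun x => ∑ m, c m * F m x := by
          have h3 : ∀ s : Finset (Fin N), ((∑ m ∈ s, c m • ii D μ ⟨p m, hp m⟩ : Lp ℝ 2 μ) :
              M → ℝ) =ᵐ[μ] fun x => ∑ m ∈ s, c m * F m x := by
            intro s
            induction s using Finset.induction_on with
            | empty =>
              simp only [Finset.sum_empty]
              exact Lp.coeFn_zero ℝ 2 μ
            | insert a s ha ih =>
              rw [Finset.sum_insert ha]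
              filter_upwards [Lp.coeFn_add (c a • ii D μ ⟨p a, hp a⟩)
                (∑ m ∈ s, c m • ii D μ ⟨p m, hp m⟩), ih,
                Lp.coeFn_smul (c a) (ii D μ ⟨p a, hp a⟩), hp1 a] with x a1 a2 a3 a4
              rw [a1, Pi.add_apply, a2, a3, Pi.smul_apply, Finset.sum_insert ha, smul_eq_mul,
                ii_apply, a4]
          exact h3 Finset.univ
        rw [hc] at h2
        filter_upwards [h2, Lp.coeFn_zero ℝ 2 μ] with x a1 a2
        rw [← a1, a2]
      have h4 := (hF c).1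
      have h5 : ∫ x, Real.exp ((0 : C(M, ℝ)) x) * (∑ i, c i * F i x) ^ 2 ∂μ = 0 := by
        rw [integral_eq_zero_of_ae]
        filter_upwards [h1] with x hx
        rw [hx]
        simp
      rw [h5] at h4
      have h6 : ∑ i, (c i) ^ 2 ≤ 0 := by
        by_contra hcon
        push Not at hcon
        have := mul_pos hδ hcon
        linarith
      have h7 : (c m) ^ 2 ≤ ∑ i, (c i) ^ 2 :=
        Finset.single_le_sum (f := fun i => (c i) ^ 2) (fun i _ => sq_nonneg _)
          (Finset.mem_univ m)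
      have h8 : (c m) ^ 2 = 0 := le_antisymm (h7.trans h6) (sq_nonneg _)
      exact pow_eq_zero_iff (two_ne_zero) |>.1 h8
    refine ⟨fun m => ⟨p (Fin.castLE hNn m), hp _⟩, ?_⟩
    exact hli.comp (Fin.castLE hNn) (Fin.castLE_injective hNn)

end Pool.Agent.Y264.QR
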