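import Pool.Agent.Y264.QR.EigF
import Pool.Agent.Y264.QR.Top
import Pool.Agent.Y264.QR.PackF

/-!
# Project QR: existence of ordered orthonormal bases of eigenfunctions
-/

set_option autoImplicit false

open Set Filter Topology MeasureTheory
open scoped Real ContDiff

noncomputable section

namespace Pool.Agent.Y264.QR

open Pool.Agent.Y262.QE

/-- existence of bases of eigenfunctions -/
def StEx : Prop :=
  ∀ (M : Type) [MetricSpace M] [CompactSpace M] [MeasurableSpace M] [BorelSpace M] (μ : Measure M)
    (D : Data M), D.IsSurf μ → Nonempty M → ∀ φ : C(M, ℝ), ∃ (u : ℕ → M → ℝ) (lam : ℕ → ℝ),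
    EigBasis (D.conf fun x => Real.exp (φ x)) (wm μ fun x => Real.exp (φ x)) u lam

section

variable {M : Type} [MetricSpace M] [CompactSpace M] [MeasurableSpace M] [BorelSpace M]

/-- the algebra of continuously differentiable functions -/
def alg (hGr : StGr) (μ : Measure M) (D : Data M) (hD : D.IsSurf μ) :
    Subalgebra ℝ C(M, ℝ) where
  carrier := {F | D.C1 F}
  mul_mem' := by
    intro F G hF hG i
    exact (hF i).mul (hG i)
  add_mem' := by
    intro F G hF hG i
    exact (hF i).add (hG i)
  algebraMap_mem' := by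
    intro r i
    exact contDiffOn_const

theorem sep (hGr : StGr) (hLoc : StLoc) (μ : Measure M) (D : Data M) (hD : D.IsSurf μ) :
    (alg hGr μ D hD).SeparatesPoints := by
  intro x y hxy
  obtain ⟨i, hi⟩ := hD.cover x
  have hz : D.φ i x ∈ D.T i := ⟨x, hi, rfl⟩
  obtain ⟨r₀, hr₀, hr⟩ := hLoc M μ D hD i (D.φ i x) hz 1 one_pos
  set Φ : ℂ → M := fun y => D.ψ i (D.φ i x + (D.A i (D.φ i x)).inverse y) with hΦ
  have hΦ0 : Φ 0 = x := by simp only [hΦ, map_zero, add_zero, hD.left i x hi]
  -- a square whose image does not contain `y`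
  obtain ⟨-, hP⟩ := hr (r₀ / 2) (by positivity) (by linarith)
  have hS0 : (0 : ℂ) ∈ Sq 0 (r₀ / 2) := by
    simp only [Sq, mem_setOf_eq, Complex.zero_re, Complex.zero_im, sub_zero, abs_zero]
    constructor <;> positivity
  by_cases hy : y ∈ Φ '' Sq 0 (r₀ / 2)
  · obtain ⟨w, hw, hwy⟩ := hy
    have hw0 : w ≠ 0 := by
      rintro rfl
      exact hxy (hΦ0.symm.trans hwy)
    -- a bump function near 0 with small support
    set s : ℝ := min (r₀ / 2) (‖w‖) / 2 with hs
    have hs0 : 0 < s := by
      have : 0 < ‖w‖ := norm_pos_iff.2 hw0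
      positivity
    have hball : Metric.ball (0 : ℂ) (r₀ / 2) ⊆ Sq 0 (r₀ / 2) := by
      intro z hz
      have hz' : ‖z‖ < r₀ / 2 := by simpa using hz
      simp only [Sq, mem_setOf_eq, Complex.zero_re, Complex.zero_im, sub_zero]
      exact ⟨(Complex.abs_re_le_norm z).trans hz'.le, (Complex.abs_im_le_norm z).trans hz'.le⟩
    let bp : ContDiffBump (0 : ℂ) := ⟨s / 2, s, by positivity, by linarith⟩
    have hts : tsupport bp ⊆ interior (Sq 0 (r₀ / 2)) := by
      rw [bp.tsupport_eq]
      refine (Metric.closedBall_subset_ball ?_).trans (interior_maximal hball Metric.isOpen_ball)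
      show s < r₀ / 2
      have := min_le_left (r₀ / 2) ‖w‖
      rw [hs]; linarith
    obtain ⟨F, hF, hF1, hF2⟩ := hP.lift bp bp.contDiff hts
    obtain ⟨g1, -, -⟩ := hGr M μ D hD
    refine ⟨F, ⟨⟨F, (g1 F hF).1⟩, hF, rfl⟩, ?_⟩
    have e1 : F x = 1 := by
      rw [← hΦ0, hF1 0 hS0]
      exact bp.one_of_mem_closedBall (by simp [bp.rIn_pos.le])
    have e2 : F y = 0 := by
      rw [← hwy, hF1 w hw]
      refine bp.zero_of_le_dist ?_
      show s ≤ dist w 0
      rw [dist_zero_right]
      have := min_le_right (r₀ / 2) ‖w‖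
      have h2 : 0 < ‖w‖ := norm_pos_iff.2 hw0
      rw [hs]; linarith
    rw [e1, e2]
    exact one_ne_zero
  · have hball : Metric.ball (0 : ℂ) (r₀ / 2) ⊆ Sq 0 (r₀ / 2) := by
      intro z hz
      have hz' : ‖z‖ < r₀ / 2 := by simpa using hz
      simp only [Sq, mem_setOf_eq, Complex.zero_re, Complex.zero_im, sub_zero]
      exact ⟨(Complex.abs_re_le_norm z).trans hz'.le, (Complex.abs_im_le_norm z).trans hz'.le⟩
    let bp : ContDiffBump (0 : ℂ) := ⟨r₀ / 8, r₀ / 4, by positivity, by linarith⟩
    have hts : tsupport bp ⊆ interior (Sq 0 (r₀ / 2)) := by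
      rw [bp.tsupport_eq]
      refine (Metric.closedBall_subset_ball ?_).trans (interior_maximal hball Metric.isOpen_ball)
      show r₀ / 4 < r₀ / 2
      linarith
    obtain ⟨F, hF, hF1, hF2⟩ := hP.lift bp bp.contDiff hts
    obtain ⟨g1, -, -⟩ := hGr M μ D hD
    refine ⟨F, ⟨⟨F, (g1 F hF).1⟩, hF, rfl⟩, ?_⟩
    have e1 : F x = 1 := by
      rw [← hΦ0, hF1 0 hS0]
      exact bp.one_of_mem_closedBall (by simp [bp.rIn_pos.le])
    rw [e1, hF2 y hy]
    exact one_ne_zero

/-- continuously differentiable functions are total in `L²` -/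
theorem c1_total (hGr : StGr) (hLoc : StLoc) (μ : Measure M) [IsFiniteMeasure μ] (D : Data M)
    (hD : D.IsSurf μ) (f : M → ℝ) (hf : MemLp f 2 μ)
    (h : ∀ G, D.C1 G → ∫ x, f x * G x ∂μ = 0) : f =ᵐ[μ] 0 := by
  have hden := ContinuousMap.subalgebra_topologicalClosure_eq_top_of_separatesPoints
    (alg hGr μ D hD) (sep hGr hLoc μ D hD)
  have hfi : Integrable f μ := hf.integrable (by norm_num)
  -- all continuous functions
  have hall : ∀ g : C(M, ℝ), ∫ x, f x * g x ∂μ = 0 := by
    have hcl : IsClosed {g : C(M, ℝ) | ∫ x, f x * g x ∂μ = 0} := by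
      have hc : Continuous fun g : C(M, ℝ) => ∫ x, f x * g x ∂μ := by
        rw [continuous_iff_continuousAt]
        intro g
        have hb : ∀ g' : C(M, ℝ), dist (∫ x, f x * g' x ∂μ) (∫ x, f x * g x ∂μ) ≤
            (∫ x, |f x| ∂μ) * ‖g' - g‖ := by
          intro g'
          have hi : ∀ k : C(M, ℝ), Integrable (fun x => f x * k x) μ := fun k => by
            have := hfi.bdd_mul (f := k) (c := ‖k‖) k.continuous.aestronglyMeasurable
              (Eventually.of_forall fun x => k.norm_coe_le_norm x)
            refine this.congr (Eventually.of_forall fun x => ?_)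
            show k x * f x = f x * k x
            ring
          rw [dist_eq_norm, ← integral_sub (hi g') (hi g), ← integral_mul_const]
          refine (norm_integral_le_integral_norm _).trans
            (integral_mono_of_nonneg (Eventually.of_forall fun x => norm_nonneg _)
              (hfi.abs.mul_const _) (Eventually.of_forall fun x => ?_))
          show ‖f x * g' x - f x * g x‖ ≤ |f x| * ‖g' - g‖
          rw [← mul_sub, norm_mul, Real.norm_eq_abs]
          refine mul_le_mul_of_nonneg_left ?_ (abs_nonneg _)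
          exact (g' - g).norm_coe_le_norm x
        rw [ContinuousAt, tendsto_iff_dist_tendsto_zero]
        refine squeeze_zero (fun _ => dist_nonneg) hb ?_
        have h1 : Tendsto (fun g' : C(M, ℝ) => ‖g' - g‖) (𝓝 g) (𝓝 0) := by
          have : Tendsto (fun g' : C(M, ℝ) => ‖g' - g‖) (𝓝 g) (𝓝 ‖g - g‖) :=
            ((continuous_id.sub continuous_const).norm).tendsto g
          simpa using this
        simpa using h1.const_mul (∫ x, |f x| ∂μ)
      exact isClosed_eq hc continuous_const
    intro g
    have hg : g ∈ (alg hGr μ D hD).topologicalClosure := by rw [hden]; trivial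
    exact closure_minimal (s := {F : C(M, ℝ) | D.C1 F}) (fun G hG => h G hG) hcl hg
  -- density in L²
  have hd := ContinuousMap.toLp_denseRange ℝ μ ℝ (p := 2) (by norm_num)
  have h0 : hf.toLp f = 0 := by
    refine hd.eq_zero_of_inner_right ℝ fun g => ?_
    rw [L2.inner_def, ← hall g]
    refine integral_congr_ae ?_
    filter_upwards [hf.coeFn_toLp, ContinuousMap.coeFn_toLp μ g (p := 2) (𝕜 := ℝ)] with x h1 h2
    rw [h1, h2]
    simp [mul_comm]
  have h1 := hf.coeFn_toLp
  rw [h0] at h1
  filter_upwards [h1, Lp.coeFn_zero ℝ 2 μ] with x h2 h3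
  rw [← h2, h3]

theorem ex (hGr : StGr) (hFin : StFin) (hConf : StConf) (hLoc : StLoc) (hDen : StDenF)
    (hPack : StPackF) (hFm : StFm) (hSp : StSp) : StEx := by
  intro M _ _ _ _ μ D hD hM φ
  obtain ⟨hf, -⟩ := hFin M μ D hD
  haveI := hf
  obtain ⟨i, a, hSf, hi, ha⟩ := hPack M μ D hD hM
  obtain ⟨b, hB, hF, -, hcmp, -⟩ := hFm M μ (HF D μ) i a hSf
  haveI : CompleteSpace (HF D μ) :=
    (Submodule.isClosed_topologicalClosure _).completeSpace_coe
  obtain ⟨e, E, hE⟩ := hSp (HF D μ) a (b φ) (hF φ)
  have hwc : Continuous fun x => Real.exp (φ x) := Real.continuous_exp.comp φ.continuous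
  have hm : Measurable fun x => Real.exp (φ x) := hwc.measurable
  have h0 : ∀ x, 0 ≤ Real.exp (φ x) := fun x => (Real.exp_pos _).le
  refine ⟨fun j => ((e j).1.fst : M → ℝ), E, ?_, hE.mono, ?_, ?_⟩
  · intro j
    refine eigF hGr hFin hConf hDen M μ D hD _ hwc (fun x => Real.exp_pos _) (E j) (e j).1 (e j).2
      fun v' hv' => ?_
    have h1 := hE.eig j ⟨v', hv'⟩
    rw [ha, hB, hi, hi] at h1
    exact h1
  · intro k l
    rw [integral_wm μ _ hm h0, ← hE.orth k l, hB, hi, hi]
  · intro f hfm hfo
    -- `f` is square integrable for `μ` as well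
    have hmu : wm (wm μ fun x => Real.exp (φ x)) (fun x => Real.exp (-φ x)) = μ := by
      have hm' : Measurable fun x => Real.exp (-φ x) :=
        (Real.continuous_exp.comp φ.continuous.neg).measurable
      show (μ.withDensity (fun x => ENNReal.ofReal (Real.exp (φ x)))).withDensity
        (fun x => ENNReal.ofReal (Real.exp (-φ x))) = μ
      rw [← withDensity_mul μ hm.ennreal_ofReal hm'.ennreal_ofReal]
      have h1 : ((fun x => ENNReal.ofReal (Real.exp (φ x))) *
          fun x => ENNReal.ofReal (Real.exp (-φ x))) = 1 := by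
        funext x
        simp only [Pi.mul_apply, Pi.one_apply]
        rw [← ENNReal.ofReal_mul (Real.exp_pos _).le, ← Real.exp_add, add_neg_cancel, Real.exp_zero,
          ENNReal.ofReal_one]
      rw [h1, withDensity_one]
    have hfμ : MemLp f 2 μ := by
      have h1 := Pool.Agent.Y986.QE.memLp_wm (μ := wm μ fun x => Real.exp (φ x))
        (w := fun x => Real.exp (-φ x)) (Real.continuous_exp.comp φ.continuous.neg) hfm
      rw [hmu] at h1
      exact h1
    have hgμ : MemLp (fun x => Real.exp (φ x) * f x) 2 μ := by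
      have h1 : ∀ x, ‖Real.exp (φ x)‖ ≤ Real.exp ‖φ‖ := fun x => by
        rw [Real.norm_eq_abs, abs_of_pos (Real.exp_pos _)]
        refine Real.exp_le_exp.2 ((le_abs_self _).trans ?_)
        rw [← Real.norm_eq_abs]
        exact φ.norm_coe_le_norm x
      refine MemLp.of_le_mul (c := Real.exp ‖φ‖) hfμ
        (hwc.aestronglyMeasurable.mul hfμ.aestronglyMeasurable) (Eventually.of_forall fun x => ?_)
      rw [norm_mul]
      exact mul_le_mul_of_nonneg_right (h1 x) (norm_nonneg _)
    have hg0 : (fun x => Real.exp (φ x) * f x) =ᵐ[μ] 0 := by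
      refine c1_total hGr hLoc μ D hD _ hgμ fun G hG => ?_
      obtain ⟨v, hv, hv1, -⟩ := (hDen M μ D hD).1 G hG
      set ℓ : HF D μ →L[ℝ] ℝ := (innerSL ℝ (hgμ.toLp _)).comp i with hℓ
      have hℓv : ∀ v : HF D μ, ℓ v = ∫ x, Real.exp (φ x) * (f x * (v.1.fst : M → ℝ) x) ∂μ := by
        intro v
        rw [hℓ, ContinuousLinearMap.comp_apply, innerSL_apply_apply, inn, hi]
        refine integral_congr_ae ?_
        filter_upwards [hgμ.coeFn_toLp] with x hx
        rw [hx]
        ring
      have hℓe : ∀ j, ℓ (e j) = 0 := by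
        intro j
        rw [hℓv, ← hfo j, integral_wm μ _ hm h0]
      have hnorm : ∀ v : HF D μ, ‖i v‖ ^ 2 ≤ Real.exp ‖(0 : C(M, ℝ)) - φ‖ * b φ v v := by
        intro v
        refine le_trans (le_of_eq ?_) (hcmp 0 φ v)
        rw [hB, nsq]
        refine integral_congr_ae (Eventually.of_forall fun x => ?_)
        simp only [ContinuousMap.zero_apply, Real.exp_zero, one_mul]
        ring
      have hsum := hE.sum (⟨v, hv⟩ : HF D μ)
      set V : HF D μ := ⟨v, hv⟩ with hV
      set t : ℕ → ℝ := fun j => b φ V (e j) with ht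
      set S : ℕ → HF D μ := fun n => ∑ j ∈ Finset.range n, t j • e j with hS
      have hbS : ∀ n, b φ (V - S n) (V - S n) = b φ V V - ∑ j ∈ Finset.range n, (t j) ^ 2 := by
        intro n
        have e1 : b φ V (S n) = ∑ j ∈ Finset.range n, (t j) ^ 2 := by
          simp only [hS, map_sum, map_smul, smul_eq_mul]
          exact Finset.sum_congr rfl fun j _ => by rw [sq]
        have e2 : b φ (S n) V = ∑ j ∈ Finset.range n, (t j) ^ 2 := by
          rw [(hF φ).sb, e1]
        have e3 : b φ (S n) (S n) = ∑ j ∈ Finset.range n, (t j) ^ 2 := by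
          have e4 : ∀ j ∈ Finset.range n, b φ (S n) (e j) = t j := by
            intro j hj
            simp only [hS, map_sum, map_smul, ContinuousLinearMap.sum_apply,
              ContinuousLinearMap.smul_apply, smul_eq_mul, hE.orth]
            simp only [mul_ite, mul_one, mul_zero]
            rw [Finset.sum_ite_eq' (Finset.range n) j t, if_pos hj]
          calc b φ (S n) (S n) = ∑ j ∈ Finset.range n, t j * b φ (S n) (e j) := by
                have e5 : b φ (S n) (∑ j ∈ Finset.range n, t j • e j) =
                    ∑ j ∈ Finset.range n, t j * b φ (S n) (e j) := by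
                  rw [map_sum]
                  exact Finset.sum_congr rfl fun j _ => by rw [map_smul, smul_eq_mul]
                exact e5
            _ = ∑ j ∈ Finset.range n, (t j) ^ 2 :=
                Finset.sum_congr rfl fun j hj => by rw [e4 j hj, sq]
        have e6 : b φ (V - S n) (V - S n) =
            b φ V V - b φ V (S n) - b φ (S n) V + b φ (S n) (S n) := by
          simp only [map_sub, ContinuousLinearMap.sub_apply]
          ring
        rw [e6, e1, e2, e3]
        ring
      have hlim : Tendsto (fun n => ‖i (V - S n)‖ ^ 2) atTop (𝓝 0) := by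
        have h1 : Tendsto (fun n => Real.exp ‖(0 : C(M, ℝ)) - φ‖ *
            (b φ V V - ∑ j ∈ Finset.range n, (t j) ^ 2)) atTop (𝓝 0) := by
          have h2 := hsum.tendsto_sum_nat
          have h3 := (h2.const_sub (b φ V V)).const_mul (Real.exp ‖(0 : C(M, ℝ)) - φ‖)
          simpa using h3
        refine squeeze_zero (fun n => sq_nonneg _) (fun n => ?_) h1
        rw [← hbS n]
        exact hnorm _
      have hlim2 : Tendsto (fun n => ‖i (V - S n)‖) atTop (𝓝 0) := by
        have h1 := hlim.sqrt
        simpa [Real.sqrt_sq (norm_nonneg _)] using h1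
      have hℓV : ℓ V = 0 := by
        have h1 : ∀ n, |ℓ V| ≤ ‖hgμ.toLp _‖ * ‖i (V - S n)‖ := by
          intro n
          have h2 : ℓ V = ℓ (V - S n) := by
            rw [map_sub]
            simp only [hS, map_sum, map_smul, hℓe, smul_zero, Finset.sum_const_zero, sub_zero]
          rw [h2, hℓ, ContinuousLinearMap.comp_apply, innerSL_apply_apply]
          exact abs_real_inner_le_norm _ _
        have h3 : Tendsto (fun n => ‖hgμ.toLp _‖ * ‖i (V - S n)‖) atTop (𝓝 0) := by
          simpa using hlim2.const_mul (‖hgμ.toLp _‖)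
        have h4 : |ℓ V| ≤ 0 := ge_of_tendsto' h3 h1
        exact abs_nonpos_iff.1 h4
      rw [hℓv] at hℓV
      rw [← hℓV]
      refine integral_congr_ae ?_
      filter_upwards [hv1] with x hx
      rw [hx]
      ring
    have hf0 : f =ᵐ[μ] 0 := by
      filter_upwards [hg0] with x hx
      exact (mul_eq_zero.1 hx).resolve_left (Real.exp_pos _).ne'
    exact (withDensity_absolutelyContinuous μ _).ae_eq hf0

end

end Pool.Agent.Y264.QR
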