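import Pool.Agent.Y262.QE.All
import Pool.Agent.Y264.QR.Ex
import Pool.Agent.Y147.QR.AE
import Pool.Agent.Y401.QR.Dens
import Pool.Agent.Y941.QR.Qi
import Pool.Agent.Y419.QR.Fm
import Pool.Agent.Y390.QR.LIP
import Pool.Agent.Y155.QR.One
import Pool.Agent.Y689.QR.CM
import Pool.Agent.Y319.QR.Dr
import Pool.Agent.Y378.QR.Abs
import Pool.Agent.Y252.QR.Lat
import Pool.Agent.Y378.QR.Wl
import Pool.Agent.Y708.QR.Br
import Pool.Agent.Y941.QR.Cos
import Pool.Agent.Y219.QR.Cov
import Pool.Agent.Y764.QR.Lo
import Pool.Agent.Y252.QR.Dir1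
import Pool.Agent.Y183.QR.Loc
import Pool.Agent.Y183.QR.Neu
import Pool.Agent.Y319.QR.Left
import Pool.Agent.Y268.QR.Up
import Pool.Agent.Y390.QR.DIR

/-!
# Project QR: assembly

The parts were written by helper147 (derivatives of the branches), helper401 (densities, limits),
helper941 (quasi-invariance, cosine series), helper419 (forms), helper390 (continuity and one-sided
derivatives of the eigenvalues, test functions on a square), helper155 (one parameter), helper689
(measurability), helper319 (one direction, small sets), helper378 (abstract theorem, Weyl's law),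
helper252 (lattice points, sines), helper708 (eigenfunctions and forms), helper219 (covering),
helper764 (sharp spectral inequality), helper183 (squares), helper268 (test functions).
-/

set_option autoImplicit false

noncomputable section

namespace Pool.Agent.Y264.QR

open Pool.Agent.Y262.QE

theorem tDenF : StDenF := denF tGr tFin

theorem tFm : StFm := Pool.Agent.Y419.QR.fm

theorem tLip : StLip := Pool.Agent.Y390.QR.LIP.lip

theorem tDer0 : StDer0 := Pool.Agent.Y390.QR.LIP.der0

theorem tOneP : StOneP := Pool.Agent.Y155.QR.oneP Pool.Agent.Y147.QR.stAE Pool.Agent.Y147.QR.stFTC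
  Pool.Agent.Y401.QR.t_Dens tFm tLip tDer0

theorem tDr : StDr := Pool.Agent.Y319.QR.dr tDer0 tOneP Pool.Agent.Y941.QR.qn Pool.Agent.Y941.QR.qw
  Pool.Agent.Y689.QR.cm tFm tLip

theorem tAbs : StAbs := Pool.Agent.Y378.QR.t tDr Pool.Agent.Y401.QR.t_QL Pool.Agent.Y689.QR.cm tFm
  tLip

theorem tLoc : StLoc := Pool.Agent.Y183.QR.Loc.t

theorem tNeu : StNeu := Pool.Agent.Y183.QR.Neu.t Pool.Agent.Y941.QR.cos

theorem tCov : StCov := Pool.Agent.Y219.QR.cov tLoc

theorem tDir : StDir := Pool.Agent.Y390.QR.DIR.t2 Pool.Agent.Y252.QR.Dir1.t1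

theorem tLo : StLo := Pool.Agent.Y764.QR.t tNeu Pool.Agent.Y252.QR.Lat.lat tCov
  Pool.Agent.Y319.QR.tLeft

theorem tUp : StUp := Pool.Agent.Y268.QR.t tDir Pool.Agent.Y252.QR.Lat.lat tCov

theorem tPackF : StPackF := packF tFin tW tDenF tUp

theorem tBr : StBr := Pool.Agent.Y708.QR.br tDenF

theorem tWl : StWl := Pool.Agent.Y378.QR.wl tLo tUp tDenF tFm

theorem tTop : StTop := top tFin tFm tPackF tBr tWl tAbs

theorem tEx : StEx := ex tGr tFin tConf tLoc tDenF tPackF tFm tSp

end Pool.Agent.Y264.QR
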