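import Mathlib

/-!
# Project QR: sets with null boundary, weak limits
-/

set_option autoImplicit false

open Set Filter Topology MeasureTheory

noncomputable section

namespace Pool.Agent.Y264.QR.Sets

variable {M : Type} [MetricSpace M] [MeasurableSpace M] [BorelSpace M]

/-- continuous approximations of the indicator of a closed set -/
def tg (F : Set M) (n : ℕ) : C(M, ℝ) where
  toFun x := (thickenedIndicator (δ := 1 / ((n : ℝ) + 1)) Nat.one_div_pos_of_nat F x : ℝ)
  continuous_toFun := by fun_prop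

lemma tg_nonneg (F : Set M) (n : ℕ) (x : M) : 0 ≤ tg F n x := NNReal.coe_nonneg _

lemma tg_le (F : Set M) (n : ℕ) (x : M) : tg F n x ≤ 1 := by
  have := thickenedIndicator_le_one (δ := 1 / ((n : ℝ) + 1)) Nat.one_div_pos_of_nat F x
  change ((thickenedIndicator _ F x : NNReal) : ℝ) ≤ 1
  exact_mod_cast this

lemma tg_one {F : Set M} (n : ℕ) {x : M} (hx : x ∈ F) : tg F n x = 1 := by
  have := thickenedIndicator_one (δ := 1 / ((n : ℝ) + 1)) Nat.one_div_pos_of_nat F hx
  change ((thickenedIndicator _ F x : NNReal) : ℝ) = 1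
  rw [this]
  rfl

lemma tg_abs (F : Set M) (n : ℕ) (x : M) : ‖tg F n x‖ ≤ 1 := by
  rw [Real.norm_eq_abs, abs_of_nonneg (tg_nonneg F n x)]
  exact tg_le F n x

lemma tg_lim {F : Set M} (hF : IsClosed F) (x : M) :
    Tendsto (fun n => tg F n x) atTop (𝓝 (F.indicator (fun _ => (1 : ℝ)) x)) := by
  have key := thickenedIndicator_tendsto_indicator_closure
    (δseq := fun (n : ℕ) ↦ (1 : ℝ) / (n + 1))
    (fun _ ↦ Nat.one_div_pos_of_nat) tendsto_one_div_add_atTop_nhds_zero_nat F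
  rw [tendsto_pi_nhds] at key
  have h := key x
  rw [hF.closure_eq] at h
  have h2 := (NNReal.tendsto_coe).mpr h
  have h3 : ((F.indicator (fun _ => (1 : NNReal)) x : NNReal) : ℝ) =
      F.indicator (fun _ => (1 : ℝ)) x := by
    by_cases hx : x ∈ F
    · simp [hx]
    · simp [hx]
  rw [h3] at h2
  exact h2

lemma tg_int (κ : Measure M) [IsFiniteMeasure κ] (F : Set M) (n : ℕ) : Integrable (tg F n) κ :=
  Integrable.of_bound (tg F n).continuous.aestronglyMeasurable 1 (Eventually.of_forall (tg_abs F n))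

lemma tg_tendsto (κ : Measure M) [IsFiniteMeasure κ] {F : Set M} (hF : IsClosed F) :
    Tendsto (fun n => ∫ x, tg F n x ∂κ) atTop (𝓝 (κ.real F)) := by
  have h := tendsto_integral_of_dominated_convergence (μ := κ) (F := fun n x => tg F n x)
    (f := F.indicator fun _ => (1 : ℝ)) (fun _ => (1 : ℝ))
    (fun n => (tg F n).continuous.aestronglyMeasurable) (integrable_const 1)
    (fun n => Eventually.of_forall (tg_abs F n)) (Eventually.of_forall (tg_lim hF))
  rwa [integral_indicator_const _ hF.measurableSet, smul_eq_mul, mul_one] at h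

lemma le_tg (κ : Measure M) [IsFiniteMeasure κ] {F : Set M} (hF : IsClosed F) (n : ℕ) :
    κ.real F ≤ ∫ x, tg F n x ∂κ := by
  have h1 : κ.real F = ∫ x, F.indicator (fun _ => (1 : ℝ)) x ∂κ := by
    rw [integral_indicator_const _ hF.measurableSet, smul_eq_mul, mul_one]
  rw [h1]
  refine integral_mono ((integrable_const 1).indicator hF.measurableSet) (tg_int κ F n) fun x => ?_
  by_cases hx : x ∈ F
  · simp [hx, tg_one n hx]
  · simp [hx, tg_nonneg]

/-- convergence in the mean over all events of random probability measures -/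
structure Cv {Ω : Type} [MeasurableSpace Ω] (P : Measure Ω) (κ : Ω → ℕ → Measure M)
    (α : Ω → Measure M) (J : ℕ) : Prop where
  k1 : ∀ ω j, IsProbabilityMeasure (κ ω j)
  a1 : ∀ ω, IsProbabilityMeasure (α ω)
  km : ∀ (f : C(M, ℝ)) (j : ℕ), J ≤ j → AEStronglyMeasurable (fun ω => ∫ x, f x ∂(κ ω j)) P
  am : ∀ f : C(M, ℝ), AEStronglyMeasurable (fun ω => ∫ x, f x ∂(α ω)) P
  cv : ∀ (f : C(M, ℝ)) (χ : Ω → ℝ), Integrable χ P →
    Tendsto (fun j => ∫ ω, χ ω * ∫ x, f x ∂(κ ω j) ∂P) atTop (𝓝 (∫ ω, χ ω * ∫ x, f x ∂(α ω) ∂P))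

section

variable {Ω : Type} [MeasurableSpace Ω] {P : Measure Ω} {κ : Ω → ℕ → Measure M}
  {α : Ω → Measure M} {J : ℕ}

lemma Cv.kF (h : Cv P κ α J) {F : Set M} (hF : IsClosed F) (j : ℕ) (hj : J ≤ j) :
    AEStronglyMeasurable (fun ω => (κ ω j).real F) P := by
  refine aestronglyMeasurable_of_tendsto_ae atTop (f := fun n ω => ∫ x, tg F n x ∂(κ ω j))
    (fun n => h.km (tg F n) j hj) (Eventually.of_forall fun ω => ?_)
  haveI := h.k1 ω j
  exact tg_tendsto _ hF

lemma Cv.aF (h : Cv P κ α J) {F : Set M} (hF : IsClosed F) :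
    AEStronglyMeasurable (fun ω => (α ω).real F) P := by
  refine aestronglyMeasurable_of_tendsto_ae atTop (f := fun n ω => ∫ x, tg F n x ∂(α ω))
    (fun n => h.am (tg F n)) (Eventually.of_forall fun ω => ?_)
  haveI := h.a1 ω
  exact tg_tendsto _ hF

lemma real_bd (κ : Measure M) [IsProbabilityMeasure κ] (F : Set M) : ‖κ.real F‖ ≤ 1 := by
  rw [Real.norm_eq_abs, abs_of_nonneg measureReal_nonneg]
  exact measureReal_le_one

lemma tg_bd (κ : Measure M) [IsProbabilityMeasure κ] (F : Set M) (n : ℕ) :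
    ‖∫ x, tg F n x ∂κ‖ ≤ 1 := by
  refine (norm_integral_le_of_norm_le_const (C := 1) (Eventually.of_forall (tg_abs F n))).trans ?_
  simp

/-- the upper bound for closed sets and nonnegative weights -/
lemma Cv.up (h : Cv P κ α J) {F : Set M} (hF : IsClosed F) {χ : Ω → ℝ} (hχ : Integrable χ P)
    (h0 : ∀ ω, 0 ≤ χ ω) {ε : ℝ} (hε : 0 < ε) :
    ∀ᶠ j in atTop, ∫ ω, χ ω * (κ ω j).real F ∂P ≤ (∫ ω, χ ω * (α ω).real F ∂P) + ε := by
  have h1 : Tendsto (fun n => ∫ ω, χ ω * ∫ x, tg F n x ∂(α ω) ∂P) atTop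
      (𝓝 (∫ ω, χ ω * (α ω).real F ∂P)) := by
    refine tendsto_integral_of_dominated_convergence (fun ω => ‖χ ω‖)
      (fun n => hχ.aestronglyMeasurable.mul (h.am (tg F n))) hχ.norm
      (fun n => Eventually.of_forall fun ω => ?_) (Eventually.of_forall fun ω => ?_)
    · haveI := h.a1 ω
      rw [norm_mul]
      have := tg_bd (α ω) F n
      nlinarith [norm_nonneg (χ ω)]
    · haveI := h.a1 ω
      exact (tg_tendsto _ hF).const_mul _
  obtain ⟨n, hn⟩ := (h1.eventually (gt_mem_nhds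
    (show ∫ ω, χ ω * (α ω).real F ∂P < (∫ ω, χ ω * (α ω).real F ∂P) + ε / 2 by linarith))).exists
  have h2 := (h.cv (tg F n) χ hχ).eventually (gt_mem_nhds
    (show ∫ ω, χ ω * ∫ x, tg F n x ∂(α ω) ∂P <
      (∫ ω, χ ω * ∫ x, tg F n x ∂(α ω) ∂P) + ε / 2 by linarith))
  filter_upwards [h2, eventually_ge_atTop J] with j hj hJ
  have h3 : ∫ ω, χ ω * (κ ω j).real F ∂P ≤ ∫ ω, χ ω * ∫ x, tg F n x ∂(κ ω j) ∂P := by
    refine integral_mono (hχ.mul_bdd (c := 1) (h.kF hF j hJ) (Eventually.of_forall fun ω => ?_))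
      (hχ.mul_bdd (c := 1) (h.km (tg F n) j hJ) (Eventually.of_forall fun ω => ?_)) fun ω => ?_
    · haveI := h.k1 ω j
      exact real_bd _ _
    · haveI := h.k1 ω j
      exact tg_bd _ _ _
    · haveI := h.k1 ω j
      exact mul_le_mul_of_nonneg_left (le_tg _ hF n) (h0 ω)
  linarith

/-- a set with null boundary -/
structure Nb (κ : Ω → ℕ → Measure M) (α : Ω → Measure M) (D : Set M) : Prop where
  m : MeasurableSet D
  k0 : ∀ ω j, κ ω j (frontier D) = 0
  a0 : ∀ ω, α ω (frontier D) = 0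

lemma real_clo (κ : Measure M) [IsFiniteMeasure κ] {D : Set M} (h0 : κ (frontier D) = 0) :
    κ.real (closure D) = κ.real D := by
  have h1 : κ (closure D) = κ D := by
    refine le_antisymm ?_ (measure_mono subset_closure)
    have h2 : closure D ⊆ D ∪ frontier D := by
      intro x hx
      by_cases hx2 : x ∈ D
      · exact Or.inl hx2
      · exact Or.inr ⟨hx, fun h => hx2 (interior_subset h)⟩
    calc κ (closure D) ≤ κ (D ∪ frontier D) := measure_mono h2
      _ ≤ κ D + κ (frontier D) := measure_union_le _ _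
      _ = κ D := by rw [h0, add_zero]
  rw [measureReal_def, measureReal_def, h1]

lemma real_clo' (κ : Measure M) [IsProbabilityMeasure κ] {D : Set M} (hD : MeasurableSet D)
    (h0 : κ (frontier D) = 0) : κ.real (closure Dᶜ) = 1 - κ.real D := by
  rw [real_clo κ (D := Dᶜ) (by rwa [frontier_compl]), probReal_compl_eq_one_sub hD]

lemma Cv.kD (h : Cv P κ α J) {D : Set M} (hD : Nb κ α D) (j : ℕ) (hj : J ≤ j) :
    AEStronglyMeasurable (fun ω => (κ ω j).real D) P := by
  have h1 := h.kF (isClosed_closure (s := D)) j hj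
  refine h1.congr (Eventually.of_forall fun ω => ?_)
  haveI := h.k1 ω j
  exact real_clo _ (hD.k0 ω j)

lemma Cv.aD (h : Cv P κ α J) {D : Set M} (hD : Nb κ α D) :
    AEStronglyMeasurable (fun ω => (α ω).real D) P := by
  have h1 := h.aF (isClosed_closure (s := D))
  refine h1.congr (Eventually.of_forall fun ω => ?_)
  haveI := h.a1 ω
  exact real_clo _ (hD.a0 ω)

lemma Cv.ik (h : Cv P κ α J) {D : Set M} (hD : Nb κ α D) (j : ℕ) (hj : J ≤ j) {χ : Ω → ℝ}
    (hχ : Integrable χ P) : Integrable (fun ω => χ ω * (κ ω j).real D) P :=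
  hχ.mul_bdd (c := 1) (h.kD hD j hj) (Eventually.of_forall fun ω => by
    haveI := h.k1 ω j
    exact real_bd _ _)

lemma Cv.ia (h : Cv P κ α J) {D : Set M} (hD : Nb κ α D) {χ : Ω → ℝ}
    (hχ : Integrable χ P) : Integrable (fun ω => χ ω * (α ω).real D) P :=
  hχ.mul_bdd (c := 1) (h.aD hD) (Eventually.of_forall fun ω => by
    haveI := h.a1 ω
    exact real_bd _ _)

lemma Cv.pos (h : Cv P κ α J) {D : Set M} (hD : Nb κ α D) {χ : Ω → ℝ} (hχ : Integrable χ P)
    (h0 : ∀ ω, 0 ≤ χ ω) :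
    Tendsto (fun j => ∫ ω, χ ω * (κ ω j).real D ∂P) atTop (𝓝 (∫ ω, χ ω * (α ω).real D ∂P)) := by
  rw [Metric.tendsto_nhds]
  intro ε hε
  filter_upwards [h.up (isClosed_closure (s := D)) hχ h0 (half_pos hε),
    h.up (isClosed_closure (s := Dᶜ)) hχ h0 (half_pos hε), eventually_ge_atTop J] with j h1 h2 hj
  have e1 : ∫ ω, χ ω * (κ ω j).real (closure D) ∂P = ∫ ω, χ ω * (κ ω j).real D ∂P :=
    integral_congr_ae (Eventually.of_forall fun ω => by
      haveI := h.k1 ω j
      simp only [real_clo _ (hD.k0 ω j)])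
  have e2 : ∫ ω, χ ω * (α ω).real (closure D) ∂P = ∫ ω, χ ω * (α ω).real D ∂P :=
    integral_congr_ae (Eventually.of_forall fun ω => by
      haveI := h.a1 ω
      simp only [real_clo _ (hD.a0 ω)])
  have e3 : ∫ ω, χ ω * (κ ω j).real (closure Dᶜ) ∂P =
      ∫ ω, χ ω ∂P - ∫ ω, χ ω * (κ ω j).real D ∂P := by
    rw [← integral_sub hχ (h.ik hD j hj hχ)]
    refine integral_congr_ae (Eventually.of_forall fun ω => ?_)
    haveI := h.k1 ω j
    simp only [real_clo' _ hD.m (hD.k0 ω j)]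
    ring
  have e4 : ∫ ω, χ ω * (α ω).real (closure Dᶜ) ∂P =
      ∫ ω, χ ω ∂P - ∫ ω, χ ω * (α ω).real D ∂P := by
    rw [← integral_sub hχ (h.ia hD hχ)]
    refine integral_congr_ae (Eventually.of_forall fun ω => ?_)
    haveI := h.a1 ω
    simp only [real_clo' _ hD.m (hD.a0 ω)]
    ring
  rw [e1, e2] at h1
  rw [e3, e4] at h2
  rw [Real.dist_eq, abs_lt]
  constructor <;> linarith

theorem Cv.all (h : Cv P κ α J) {D : Set M} (hD : Nb κ α D) {χ : Ω → ℝ} (hχ : Integrable χ P) :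
    Tendsto (fun j => ∫ ω, χ ω * (κ ω j).real D ∂P) atTop (𝓝 (∫ ω, χ ω * (α ω).real D ∂P)) := by
  have h1 := h.pos hD hχ.pos_part fun ω => le_max_right _ _
  have h2 := h.pos hD hχ.neg_part fun ω => le_max_right _ _
  have h3 := h1.sub h2
  have hs : ∀ ω, χ ω = max (χ ω) 0 - max (-χ ω) 0 := by
    intro ω
    rcases le_total 0 (χ ω) with h4 | h4
    · rw [max_eq_left h4, max_eq_right (by linarith)]
      ring
    · rw [max_eq_right h4, max_eq_left (by linarith)]
      ring
  have e1 : ∫ ω, χ ω * (α ω).real D ∂P =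
      ∫ ω, max (χ ω) 0 * (α ω).real D ∂P - ∫ ω, max (-χ ω) 0 * (α ω).real D ∂P := by
    rw [← integral_sub (h.ia hD hχ.pos_part) (h.ia hD hχ.neg_part)]
    refine integral_congr_ae (Eventually.of_forall fun ω => ?_)
    simp only
    rw [← sub_mul, ← hs]
  rw [e1]
  refine h3.congr' ?_
  filter_upwards [eventually_ge_atTop J] with j hj
  rw [← integral_sub (h.ik hD j hj hχ.pos_part) (h.ik hD j hj hχ.neg_part)]
  refine integral_congr_ae (Eventually.of_forall fun ω => ?_)
  simp only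
  rw [← sub_mul, ← hs]

end

end Pool.Agent.Y264.QR.Sets
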