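import Pool.Agent.Y264.QR.All
import Pool.Agent.Y264.QR.Sets

/-!
# Project QR: sets with null boundary and weak limits for random conformal metrics
-/

set_option autoImplicit false

open Set Filter Topology MeasureTheory
open Pool.Agent.Y262.QE

noncomputable section

namespace Pool.Agent.Y264.QR

/-- the area of `exp φ · g` -/
def Ar {M : Type} [TopologicalSpace M] [MeasurableSpace M] (μ : Measure M) (φ : C(M, ℝ)) :
    Measure M := wm μ fun x => Real.exp (φ x)

/-- the measure `u² dA` -/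
def Sq2 {M : Type} [MeasurableSpace M] (A : Measure M) (u : M → ℝ) : Measure M :=
  A.withDensity fun x => ENNReal.ofReal ((u x) ^ 2)

section

variable {M : Type} [MetricSpace M] [MeasurableSpace M]

lemma sq2_ac (A : Measure M) (u : M → ℝ) : Sq2 A u ≪ A := withDensity_absolutelyContinuous _ _

lemma ar_ac (μ : Measure M) (φ : C(M, ℝ)) : Ar μ φ ≪ μ := withDensity_absolutelyContinuous _ _

lemma sq2_set (A : Measure M) {u : M → ℝ} (hu : MemLp u 2 A) {B : Set M} (hB : MeasurableSet B) :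
    (Sq2 A u).real B = ∫ x in B, (u x) ^ 2 ∂A := by
  rw [measureReal_def, Sq2, withDensity_apply _ hB,
    integral_eq_lintegral_of_nonneg_ae (Eventually.of_forall fun x => sq_nonneg _)
      (hu.integrable_sq.aestronglyMeasurable.restrict)]

lemma sq2_prob (A : Measure M) {u : M → ℝ} (hu : MemLp u 2 A) (h1 : ∫ x, u x * u x ∂A = 1) :
    IsProbabilityMeasure (Sq2 A u) := by
  constructor
  rw [Sq2, withDensity_apply _ MeasurableSet.univ, Measure.restrict_univ,
    ← ofReal_integral_eq_lintegral_ofReal hu.integrable_sq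
      (Eventually.of_forall fun x => sq_nonneg _)]
  have h2 : ∫ x, (u x) ^ 2 ∂A = 1 := by
    rw [← h1]
    exact integral_congr_ae (Eventually.of_forall fun x => sq (u x))
  rw [h2, ENNReal.ofReal_one]

lemma sq2_int (A : Measure M) {u : M → ℝ} (hu : MemLp u 2 A) (f : M → ℝ) :
    ∫ x, f x ∂(Sq2 A u) = ∫ x, f x * (u x) ^ 2 ∂A := by
  have h9 : Sq2 A u = A.withDensity fun x => ((Real.toNNReal ((u x) ^ 2) : NNReal) : ENNReal) := rfl
  rw [h9, integral_withDensity_eq_integral_smul₀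
    (hu.integrable_sq.aestronglyMeasurable.aemeasurable.real_toNNReal)]
  refine integral_congr_ae (Eventually.of_forall fun x => ?_)
  simp only [NNReal.smul_def, Real.coe_toNNReal _ (sq_nonneg (u x)), smul_eq_mul]
  ring

/-- the normalized area -/
def Nm (A : Measure M) : Measure M := (A univ)⁻¹ • A

lemma nm_int (A : Measure M) (f : M → ℝ) : ∫ x, f x ∂(Nm A) = (∫ x, f x ∂A) / A.real univ := by
  rw [Nm, integral_smul_measure, ENNReal.toReal_inv, smul_eq_mul, measureReal_def, div_eq_inv_mul]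

lemma nm_real (A : Measure M) (B : Set M) : (Nm A).real B = A.real B / A.real univ := by
  rw [Nm, measureReal_def, Measure.smul_apply, smul_eq_mul, ENNReal.toReal_mul,
    ENNReal.toReal_inv, measureReal_def, measureReal_def, div_eq_inv_mul]

end

/-- the theorem for sets with null boundary and for weak limits -/
theorem conc (M : Type) [MetricSpace M] [CompactSpace M] [MeasurableSpace M] [BorelSpace M]
    [Nonempty M] (μ : Measure M) (D : Data M) (hD : D.IsSurf μ)
    [MeasurableSpace C(M, ℝ)] [BorelSpace C(M, ℝ)]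
    (P : Measure C(M, ℝ)) [IsProbabilityMeasure P] (S : Set C(M, ℝ))
    (hS : Dense (Submodule.span ℝ S : Set C(M, ℝ)))
    (hP : ∀ h ∈ S, ∀ t : ℝ, P.map (fun φ => φ + t • h) ≪ P)
    (u : C(M, ℝ) → ℕ → M → ℝ) (lam : C(M, ℝ) → ℕ → ℝ)
    (hu : ∀ φ, EigBasis (D.conf fun x => Real.exp (φ x)) (wm μ fun x => Real.exp (φ x))
      (u φ) (lam φ)) :
    (∀ B : Set M, MeasurableSet B → μ (frontier B) = 0 →
      (∃ J : ℕ, ∀ j : ℕ, J ≤ j →
        AEStronglyMeasurable (fun φ => ∫ x in B, (u φ j x) ^ 2 ∂(Ar μ φ)) P) ∧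
      (∀ χ : C(M, ℝ) → ℝ, Integrable χ P →
        Tendsto (fun j => ∫ φ, χ φ * ∫ x in B, (u φ j x) ^ 2 ∂(Ar μ φ) ∂P) atTop
          (𝓝 (∫ φ, χ φ * ((Ar μ φ).real B / (Ar μ φ).real univ) ∂P))) ∧
      ∀ J : ℕ → ℕ, Tendsto J atTop atTop → ∀ᵐ φ ∂P, ∀ L : ℝ,
        Tendsto (fun k => ∫ x in B, (u φ (J k) x) ^ 2 ∂(Ar μ φ)) atTop (𝓝 L) →
          L = (Ar μ φ).real B / (Ar μ φ).real univ) ∧
    ∀ J : ℕ → ℕ, Tendsto J atTop atTop → ∀ᵐ φ ∂P, ∀ ν : Measure M, IsFiniteMeasure ν →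
      (∀ f : C(M, ℝ), Tendsto (fun k => ∫ x, f x * (u φ (J k) x) ^ 2 ∂(Ar μ φ)) atTop
        (𝓝 (∫ x, f x ∂ν))) → ν = ((Ar μ φ) univ)⁻¹ • Ar μ φ := by
  obtain ⟨⟨J0, hJ0⟩, hT⟩ := tTop M μ D hD P S hS hP u lam hu
  obtain ⟨hf, -⟩ := tFin M μ D hD
  haveI := hf
  have hfA : ∀ φ : C(M, ℝ), IsFiniteMeasure (Ar μ φ) := fun φ =>
    (tFin M _ _ (tConf M μ D hD _ (Real.continuous_exp.comp φ.continuous)
      fun x => Real.exp_pos _).1).1
  have hmem : ∀ φ j, MemLp (u φ j) 2 (Ar μ φ) := fun φ j => ((hu φ).eig j).mem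
  have h1 : ∀ φ j, ∫ x, u φ j x * u φ j x ∂(Ar μ φ) = 1 := fun φ j => by
    have := (hu φ).orth j j
    rw [if_pos rfl] at this
    exact this
  have hne : ∀ φ : C(M, ℝ), NeZero (Ar μ φ) := fun φ => ⟨fun h => by
    have := h1 φ 0
    rw [h, integral_zero_measure] at this
    exact zero_ne_one this⟩
  have hpr : ∀ φ : C(M, ℝ), IsProbabilityMeasure (Nm (Ar μ φ)) := fun φ => by
    haveI := hne φ
    haveI := hfA φ
    exact isProbabilityMeasureSMul
  have hk1 : ∀ φ j, IsProbabilityMeasure (Sq2 (Ar μ φ) (u φ j)) := fun φ j =>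
    sq2_prob _ (hmem φ j) (h1 φ j)
  have hki : ∀ (f : C(M, ℝ)) φ j, ∫ x, f x ∂(Sq2 (Ar μ φ) (u φ j)) =
      ∫ x, f x * (u φ j x) ^ 2 ∂(Ar μ φ) := fun f φ j => sq2_int _ (hmem φ j) f
  obtain ⟨-, havc, -, -⟩ := Pool.Agent.Y689.QR.cm M μ
  have hcv : Sets.Cv P (fun φ j => Sq2 (Ar μ φ) (u φ j)) (fun φ => Nm (Ar μ φ)) J0 := by
    refine ⟨hk1, hpr, fun f j hj => ?_, fun f => ?_, fun f χ hχ => ?_⟩
    · simp only [hki]
      exact hJ0 f j hj
    · have e : (fun φ => ∫ x, f x ∂(Nm (Ar μ φ))) = fun φ => avg μ f φ := by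
        funext φ
        rw [nm_int, avg_eq]
        rfl
      rw [e]
      exact (havc f).aestronglyMeasurable
    · simp only [hki, nm_int]
      exact (hT f).1 χ hχ
  refine ⟨fun B hB h0 => ?_, fun J hJ => ?_⟩
  · have hnb : Sets.Nb (fun φ j => Sq2 (Ar μ φ) (u φ j)) (fun φ => Nm (Ar μ φ)) B :=
      ⟨hB, fun φ j => (sq2_ac _ _) ((ar_ac μ φ) h0), fun φ => by
        change ((Ar μ φ univ)⁻¹ • Ar μ φ) (frontier B) = 0
        rw [Measure.smul_apply, (ar_ac μ φ) h0, smul_zero]⟩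
    have hkB : ∀ φ j, (Sq2 (Ar μ φ) (u φ j)).real B = ∫ x in B, (u φ j x) ^ 2 ∂(Ar μ φ) :=
      fun φ j => sq2_set _ (hmem φ j) hB
    have hm : ∀ j : ℕ, J0 ≤ j →
        AEStronglyMeasurable (fun φ => ∫ x in B, (u φ j x) ^ 2 ∂(Ar μ φ)) P := fun j hj => by
      have := hcv.kD hnb j hj
      simpa only [hkB] using this
    have hc : ∀ χ : C(M, ℝ) → ℝ, Integrable χ P →
        Tendsto (fun j => ∫ φ, χ φ * ∫ x in B, (u φ j x) ^ 2 ∂(Ar μ φ) ∂P) atTop
          (𝓝 (∫ φ, χ φ * ((Ar μ φ).real B / (Ar μ φ).real univ) ∂P)) := fun χ hχ => by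
      have := hcv.all hnb hχ
      simpa only [hkB, nm_real] using this
    refine ⟨⟨J0, hm⟩, hc, fun J hJ => ?_⟩
    have hql := Pool.Agent.Y401.QR.t_QL C(M, ℝ) P
      (fun j φ => ∫ x in B, (u φ (j + J0) x) ^ 2 ∂(Ar μ φ))
      (fun φ => (Ar μ φ).real B / (Ar μ φ).real univ) 1
      (fun j => hm _ (Nat.le_add_left _ _))
      (by
        have := hcv.aD hnb
        simpa only [nm_real] using this)
      (fun j => Eventually.of_forall fun φ => by
        haveI := hk1 φ (j + J0)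
        rw [← hkB]
        exact Sets.real_bd _ _)
      (Eventually.of_forall fun φ => by
        haveI := hpr φ
        rw [← nm_real]
        exact Sets.real_bd _ _)
      (fun χ hχ => (hc χ hχ).comp (tendsto_add_atTop_nat J0))
      (fun k => J k - J0) (tendsto_sub_atTop_nat J0 |>.comp hJ)
    filter_upwards [hql] with φ hφ L hL
    refine hφ L ?_
    refine hL.congr' ?_
    filter_upwards [hJ.eventually_ge_atTop J0] with k hk
    simp only [Nat.sub_add_cancel hk]
  · obtain ⟨Q, hQc, hQd⟩ := TopologicalSpace.exists_countable_dense C(M, ℝ)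
    have hall : ∀ᵐ φ ∂P, ∀ f ∈ Q, ∀ L : ℝ,
        Tendsto (fun k => ∫ x, f x * (u φ (J k) x) ^ 2 ∂(Ar μ φ)) atTop (𝓝 L) →
          L = (∫ x, f x ∂(Ar μ φ)) / (Ar μ φ).real univ :=
      (ae_ball_iff hQc).mpr fun f _ => (hT f).2 J hJ
    filter_upwards [hall] with φ hφ ν hν hl
    haveI := hν
    haveI := hpr φ
    haveI := hfA φ
    change ν = Nm (Ar μ φ)
    have hc : ∀ (m : Measure M) [IsFiniteMeasure m], Continuous fun f : C(M, ℝ) => ∫ x, f x ∂m := by
      intro m _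
      have hint : ∀ f : C(M, ℝ), Integrable f m := fun f =>
        Integrable.of_bound f.continuous.aestronglyMeasurable ‖f‖
          (Eventually.of_forall f.norm_coe_le_norm)
      refine (LipschitzWith.of_dist_le_mul (K := (m.real univ).toNNReal) fun f g => ?_).continuous
      rw [dist_eq_norm, dist_eq_norm, ← integral_sub (hint f) (hint g)]
      refine (norm_integral_le_of_norm_le_const (C := ‖f - g‖)
        (Eventually.of_forall fun x => (f - g).norm_coe_le_norm x)).trans ?_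
      rw [mul_comm, Real.coe_toNNReal _ measureReal_nonneg]
    have hEq : ∀ f : C(M, ℝ), ∫ x, f x ∂ν = ∫ x, f x ∂(Nm (Ar μ φ)) := by
      intro f
      have h2 : (fun f : C(M, ℝ) => ∫ x, f x ∂ν) = fun f : C(M, ℝ) => ∫ x, f x ∂(Nm (Ar μ φ)) := by
        refine Continuous.ext_on hQd (hc ν) (hc _) fun f hf => ?_
        simp only [nm_int]
        exact hφ f hf _ (hl f)
      exact congrFun h2 f
    refine ext_of_forall_integral_eq_of_IsFiniteMeasure fun f => ?_
    exact hEq f.toContinuousMap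

end Pool.Agent.Y264.QR
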