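import Pool.Agent.Y264.QR.Stm2

/-!
# Project QR: density of `C¹` functions in the form domain

(Adapted from helper490's file for odd functions.)
-/

set_option autoImplicit false

open Set Filter Topology MeasureTheory
open scoped Real ContDiff ComplexConjugate

noncomputable section

namespace Pool.Agent.Y264.QR

open Pool.Agent.Y262.QE

namespace DenF

variable {M : Type} [MetricSpace M] [CompactSpace M] [MeasurableSpace M] [BorelSpace M]

/-- the condition on the pairs -/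
def IsP (D : Data M) (μ : Measure M) (p : WithLp 2 (Lp ℝ 2 μ × Lp ℂ 2 μ))
    (F : M → ℝ) : Prop :=
  D.C1 F ∧ (p.fst : M → ℝ) =ᵐ[μ] F ∧ (p.snd : M → ℂ) =ᵐ[μ] D.gr F

theorem exists_pair (hGr : StGr) (hFin : StFin) (μ : Measure M) (D : Data M) (hD : D.IsSurf μ)
    (F : M → ℝ) (hF : D.C1 F) :
    ∃ p : WithLp 2 (Lp ℝ 2 μ × Lp ℂ 2 μ), IsP D μ p F := by
  obtain ⟨g1, _, _⟩ := hGr M μ D hD
  obtain ⟨c1, c2, C, c3⟩ := g1 F hF
  have := (hFin M μ D hD).1
  obtain ⟨K, hK⟩ := isCompact_univ.exists_bound_of_continuousOn c1.continuousOn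
  have m1 : MemLp F 2 μ := MemLp.of_bound c1.aestronglyMeasurable K
    (Eventually.of_forall fun x => hK x (mem_univ x))
  have m2 : MemLp (D.gr F) 2 μ := MemLp.of_bound c2.aestronglyMeasurable C
    (Eventually.of_forall c3)
  refine ⟨WithLp.toLp 2 (MemLp.toLp F m1, MemLp.toLp (D.gr F) m2), hF, ?_, ?_⟩
  · exact MemLp.coeFn_toLp m1
  · exact MemLp.coeFn_toLp m2

theorem isP_comb (hGr : StGr) (μ : Measure M) (D : Data M) (hD : D.IsSurf μ)
    {p q : WithLp 2 (Lp ℝ 2 μ × Lp ℂ 2 μ)} {F G : M → ℝ} (hp : IsP D μ p F)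
    (hq : IsP D μ q G) (α β : ℝ) :
    IsP D μ (α • p + β • q) (fun x => α * F x + β * G x) := by
  obtain ⟨_, _, g3⟩ := hGr M μ D hD
  obtain ⟨h1, h2⟩ := g3 F G hp.1 hq.1 α β
  refine ⟨h1, ?_, ?_⟩
  · have e1 : (α • p + β • q).fst = α • p.fst + β • q.fst := rfl
    rw [e1]
    filter_upwards [Lp.coeFn_add (α • p.fst) (β • q.fst), Lp.coeFn_smul α p.fst,
      Lp.coeFn_smul β q.fst, hp.2.1, hq.2.1] with x a1 a2 a3 a4 a5
    rw [a1, Pi.add_apply, a2, a3, Pi.smul_apply, Pi.smul_apply, a4, a5, smul_eq_mul, smul_eq_mul]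
  · have e1 : (α • p + β • q).snd = α • p.snd + β • q.snd := rfl
    rw [e1]
    filter_upwards [Lp.coeFn_add (α • p.snd) (β • q.snd), Lp.coeFn_smul α p.snd,
      Lp.coeFn_smul β q.snd, hp.2.2, hq.2.2] with x a1 a2 a3 a4 a5
    rw [a1, Pi.add_apply, a2, a3, Pi.smul_apply, Pi.smul_apply, a4, a5, h2]

omit [MetricSpace M] [CompactSpace M] [MeasurableSpace M] [BorelSpace M] in
theorem c1_zero (D : Data M) : D.C1 (fun _ : M => (0:ℝ)) := fun _ => contDiffOn_const

/-- the pairs form a submodule -/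
def sub (hGr : StGr) (hFin : StFin) (μ : Measure M) (D : Data M) (hD : D.IsSurf μ) :
    Submodule ℝ (WithLp 2 (Lp ℝ 2 μ × Lp ℂ 2 μ)) where
  carrier := {p | ∃ F, IsP D μ p F}
  zero_mem' := by
    obtain ⟨p, hp⟩ := exists_pair hGr hFin μ D hD (fun _ => 0) (c1_zero D)
    have := isP_comb hGr μ D hD hp hp 0 0
    rw [zero_smul, add_zero] at this
    exact ⟨_, this⟩
  add_mem' := by
    rintro p q ⟨F, hF⟩ ⟨G, hG⟩
    refine ⟨fun x => 1 * F x + 1 * G x, ?_⟩
    have := isP_comb hGr μ D hD hF hG 1 1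
    simpa only [one_smul] using this
  smul_mem' := by
    rintro c p ⟨F, hF⟩
    refine ⟨fun x => c * F x + 0 * F x, ?_⟩
    have := isP_comb hGr μ D hD hF hF c 0
    simpa only [zero_smul, add_zero] using this

theorem span_eq (hGr : StGr) (hFin : StFin) (μ : Measure M) (D : Data M) (hD : D.IsSurf μ) :
    Submodule.span ℝ {p : WithLp 2 (Lp ℝ 2 μ × Lp ℂ 2 μ) |
      ∃ F : M → ℝ, D.C1 F ∧
      (p.fst : M → ℝ) =ᵐ[μ] F ∧ (p.snd : M → ℂ) =ᵐ[μ] D.gr F} = sub hGr hFin μ D hD :=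
  Submodule.span_eq (sub hGr hFin μ D hD)

end DenF

open DenF in
theorem denF : StGr → StFin → StDenF := by
  intro hGr hFin M _ _ _ _ μ D hD
  have hsp := span_eq hGr hFin μ D hD
  constructor
  · intro F hF
    obtain ⟨p, hp⟩ := exists_pair hGr hFin μ D hD F hF
    exact ⟨p, Submodule.le_topologicalClosure _ (Submodule.subset_span ⟨F, hp⟩), hp.2.1, hp.2.2⟩
  · intro v hv
    have hv' : v ∈ closure ((sub hGr hFin μ D hD : Submodule ℝ _) :
        Set (WithLp 2 (Lp ℝ 2 μ × Lp ℂ 2 μ))) := by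
      unfold HF at hv
      rw [hsp] at hv
      exact hv
    obtain ⟨f, hf, hft⟩ := mem_closure_iff_seq_limit.1 hv'
    choose F hF using hf
    refine ⟨F, f, fun k => ⟨(hF k).1, ?_, (hF k).2.1, (hF k).2.2⟩, hft⟩
    exact Submodule.le_topologicalClosure _ (Submodule.subset_span ⟨F k, hF k⟩)

end Pool.Agent.Y264.QR
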