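import Pool.Agent.Y264.QR.Stm2
import Pool.Agent.Y986.QE.Eig

/-!
# Project QR: an eigenvector of the forms is an eigenfunction of the conformally changed surface

(Adapted from helper986's file for odd functions.)
-/

set_option autoImplicit false

open Set Filter Topology MeasureTheory
open scoped Real ContDiff ComplexConjugate

noncomputable section

namespace Pool.Agent.Y264.QR

open Pool.Agent.Y262.QE Pool.Agent.Y986.QE

theorem eigF : StGr → StFin → StConf → StDenF →
    ∀ (M : Type) [MetricSpace M] [CompactSpace M] [MeasurableSpace M] [BorelSpace M]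
      (μ : Measure M) (D : Data M), D.IsSurf μ → ∀ w : M → ℝ, Continuous w → (∀ x, 0 < w x) →
      ∀ (lam : ℝ), ∀ v ∈ HF D μ,
      (∀ v' ∈ HF D μ, inner ℝ v.snd v'.snd =
        lam * ∫ x, w x * ((v.fst : M → ℝ) x * (v'.fst : M → ℝ) x) ∂μ) →
      (D.conf w).IsEig (wm μ w) lam (v.fst : M → ℝ) := by
  intro hGr hFin hConf hDen M _ _ _ _ μ D hD w hw hp lam v hv hev
  obtain ⟨hfin, -⟩ := hFin M μ D hD
  obtain ⟨hG1, -, hG3⟩ := hGr M μ D hD
  obtain ⟨-, hcgr⟩ := hConf M μ D hD w hw hp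
  obtain ⟨hD1, hD2⟩ := hDen M μ D hD
  obtain ⟨F, f, hF, hlim⟩ := hD2 v hv
  obtain ⟨C, hC0, hC⟩ := bdd_of_cont hw
  -- norms
  have hn : Tendsto (fun k => ‖f k - v‖ ^ 2) atTop (𝓝 0) := by
    have h1 : Tendsto (fun k => ‖f k - v‖) atTop (𝓝 0) := tendsto_iff_norm_sub_tendsto_zero.1 hlim
    have h2 := h1.pow 2
    simpa using h2
  have hintF : ∀ {G : M → ℝ}, D.C1 G → Continuous G := fun hG => (hG1 _ hG).1
  -- integrability of inner products of gradients
  have hintG : ∀ {G G' : M → ℝ}, D.C1 G → D.C1 G' →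
      Integrable (fun x => inner ℝ (D.gr G x) (D.gr G' x)) μ := by
    intro G G' hG hG'
    obtain ⟨-, hm, A, hA⟩ := hG1 _ hG
    obtain ⟨-, hm', A', hA'⟩ := hG1 _ hG'
    refine Integrable.of_bound (hm.inner hm').aestronglyMeasurable (|A| * |A'|)
      (Eventually.of_forall fun x => ?_)
    rw [Real.norm_eq_abs]
    refine (abs_real_inner_le_norm _ _).trans ?_
    exact mul_le_mul ((hA x).trans (le_abs_self _)) ((hA' x).trans (le_abs_self _)) (norm_nonneg _)
      (abs_nonneg _)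
  -- the inner product of changed gradients
  have hcin : ∀ (G G' : M → ℝ) (x : M), w x * inner ℝ ((D.conf w).gr G x) ((D.conf w).gr G' x) =
      inner ℝ (D.gr G x) (D.gr G' x) := by
    intro G G' x
    rw [hcgr, hcgr, real_inner_smul_left, real_inner_smul_right]
    have h1 : Real.sqrt (w x) * Real.sqrt (w x) = w x := Real.mul_self_sqrt (hp x).le
    have h2 : Real.sqrt (w x) ≠ 0 := (Real.sqrt_pos.2 (hp x)).ne'
    calc w x * ((Real.sqrt (w x))⁻¹ * ((Real.sqrt (w x))⁻¹ * inner ℝ (D.gr G x) (D.gr G' x)))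
        = (Real.sqrt (w x) * Real.sqrt (w x)) *
          ((Real.sqrt (w x))⁻¹ * ((Real.sqrt (w x))⁻¹ * inner ℝ (D.gr G x) (D.gr G' x))) := by
          rw [h1]
      _ = (Real.sqrt (w x) * (Real.sqrt (w x))⁻¹) * (Real.sqrt (w x) * (Real.sqrt (w x))⁻¹) *
          inner ℝ (D.gr G x) (D.gr G' x) := by ring
      _ = inner ℝ (D.gr G x) (D.gr G' x) := by rw [mul_inv_cancel₀ h2, one_mul, one_mul]
  have huI : Integrable (fun x => (v.fst : M → ℝ) x) μ := (Lp.memLp v.fst).integrable (by norm_num)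
  refine ⟨memLp_wm hw (Lp.memLp v.fst), F, fun k => (hF k).1, ?_, ?_, ?_⟩
  · -- convergence in L^2
    have hle : ∀ k, ∫ x, (F k x - (v.fst : M → ℝ) x) ^ 2 ∂(wm μ w) ≤ C * ‖f k - v‖ ^ 2 := by
      intro k
      rw [int_wm hw hp]
      have e1 : ∫ x, w x * (F k x - (v.fst : M → ℝ) x) ^ 2 ∂μ =
          ∫ x, w x * (((f k - v).fst : M → ℝ) x) ^ 2 ∂μ := by
        refine integral_congr_ae ?_
        have h1 := (hF k).2.2.1
        have h2 : (((f k - v).fst : Lp ℝ 2 μ) : M → ℝ) =ᵐ[μ] ((f k).fst : M → ℝ) - (v.fst : M → ℝ) := by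
          rw [WithLp.sub_fst]
          exact Lp.coeFn_sub _ _
        filter_upwards [h1, h2] with x hx1 hx2
        rw [hx2, Pi.sub_apply, hx1]
      rw [e1, mul_comm C]
      calc ∫ x, w x * (((f k - v).fst : M → ℝ) x) ^ 2 ∂μ
          ≤ ∫ x, C * (((f k - v).fst : M → ℝ) x) ^ 2 ∂μ := by
            refine integral_mono_of_nonneg (Eventually.of_forall fun x => ?_)
              ((integrable_sq _).const_mul C) (Eventually.of_forall fun x => ?_)
            · exact mul_nonneg (hp x).le (sq_nonneg _)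
            · exact mul_le_mul_of_nonneg_right ((le_abs_self _).trans (hC x)) (sq_nonneg _)
        _ = C * ‖(f k - v).fst‖ ^ 2 := by rw [integral_const_mul, int_sq]
        _ ≤ C * ‖f k - v‖ ^ 2 := mul_le_mul_of_nonneg_left (fst_le _) hC0
        _ = ‖f k - v‖ ^ 2 * C := mul_comm _ _
    refine squeeze_zero (fun k => integral_nonneg fun x => sq_nonneg _) hle ?_
    simpa using hn.const_mul C
  · -- the gradients form a Cauchy sequence
    have heq : ∀ p : ℕ × ℕ, ∫ x, ‖(D.conf w).gr (F p.1) x - (D.conf w).gr (F p.2) x‖ ^ 2 ∂(wm μ w) =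
        ‖(f p.1 - f p.2).snd‖ ^ 2 := by
      intro p
      rw [int_wm hw hp, ← int_sqC]
      refine integral_congr_ae ?_
      have h1 := (hF p.1).2.2.2
      have h2 := (hF p.2).2.2.2
      have h3 : (((f p.1 - f p.2).snd : Lp ℂ 2 μ) : M → ℂ) =ᵐ[μ]
          ((f p.1).snd : M → ℂ) - ((f p.2).snd : M → ℂ) := by
        rw [WithLp.sub_snd]
        exact Lp.coeFn_sub _ _
      filter_upwards [h1, h2, h3] with x hx1 hx2 hx3
      rw [hx3, Pi.sub_apply, hx1, hx2, hcgr, hcgr, ← smul_sub, norm_smul, mul_pow, Real.norm_eq_abs,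
        sq_abs, inv_pow, Real.sq_sqrt (hp x).le, ← mul_assoc, mul_inv_cancel₀ (hp x).ne', one_mul]
    simp only [heq]
    have h2 : Tendsto (fun p : ℕ × ℕ => f p.1 - f p.2) atTop (𝓝 (v - v)) := by
      rw [← prod_atTop_atTop_eq]
      exact (hlim.comp tendsto_fst).sub (hlim.comp tendsto_snd)
    have h3 : Tendsto (fun p : ℕ × ℕ => ‖f p.1 - f p.2‖ ^ 2) atTop (𝓝 0) := by
      have := (h2.norm).pow 2
      simpa using this
    exact squeeze_zero (fun p => sq_nonneg _) (fun p => snd_le _) h3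
  · intro G hG'
    have hG : D.C1 G := hG'
    obtain ⟨v', hv', hv1, hv2⟩ := hD1 G hG
    have e2 : ∀ k, ∫ x, inner ℝ ((D.conf w).gr (F k) x) ((D.conf w).gr G x) ∂(wm μ w) =
        inner ℝ (f k).snd v'.snd := by
      intro k
      rw [int_wm hw hp, L2.inner_def]
      refine integral_congr_ae ?_
      filter_upwards [(hF k).2.2.2, hv2] with x hx1 hx2
      rw [hx1, hx2]
      exact hcin (F k) G x
    simp only [e2]
    have e3 : lam * ∫ x, (v.fst : M → ℝ) x * G x ∂(wm μ w) = inner ℝ v.snd v'.snd := by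
      rw [hev v' hv', int_wm hw hp]
      congr 1
      refine integral_congr_ae ?_
      filter_upwards [hv1] with x hx1
      rw [hx1]
    rw [e3]
    have hsnd : Continuous (fun x : WithLp 2 (Lp ℝ 2 μ × Lp ℂ 2 μ) => x.snd) :=
      WithLp.continuous_snd 2 _ _
    have hc : Continuous (fun x : WithLp 2 (Lp ℝ 2 μ × Lp ℂ 2 μ) => inner ℝ x.snd v'.snd) :=
      hsnd.inner continuous_const
    exact (hc.tendsto v).comp hlim

end Pool.Agent.Y264.QR
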