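import Pool.Agent.Y262.QE.Stm

/-!
# Project QR: statements

Quantum unique ergodicity in the mean for random conformal metrics on closed surfaces.

Notation: `φ : C(M, ℝ)` is the logarithm of the conformal factor, the metric is `exp φ · g`.
-/

set_option autoImplicit false

open Set Filter Topology MeasureTheory
open scoped Real ContDiff
open Pool.Agent.Y262.QE

noncomputable section

namespace Pool.Agent.Y264.QR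

/-- an ordered orthonormal basis of `L²` which consists of eigenfunctions of the surface -/
structure EigBasis {M : Type} [MeasurableSpace M] (D : Data M) (μ : Measure M) (u : ℕ → M → ℝ)
    (lam : ℕ → ℝ) : Prop where
  eig : ∀ j, D.IsEig μ (lam j) (u j)
  mono : Monotone lam
  orth : ∀ i j, ∫ x, u i x * u j x ∂μ = if i = j then 1 else 0
  total : ∀ f : M → ℝ, MemLp f 2 μ → (∀ j, ∫ x, f x * u j x ∂μ = 0) → f =ᵐ[μ] 0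

/-! ### One real variable -/

/-- `RA-AE`: almost everywhere differentiability and the derivative of the branches -/
def StAE : Prop :=
  ∀ (E κ : ℕ → ℝ → ℝ) (K : ℝ), (∀ j t, 0 ≤ E j t) → (∀ i j t, i ≤ j → E i t ≤ E j t) →
    (∀ j s t, E j s ≤ Real.exp (K * |s - t|) * E j t) →
    (∀ i j t, E i t = E j t → (∀ l, l < i → E l t < E i t) → ∀ ε : ℝ, 0 < ε →
      ∃ δ : ℝ, 0 < δ ∧ ∀ τ : ℝ, |τ| < δ →
        E i (t + τ) ≤ E i t * (1 - κ j t * τ) + ε * |τ|) →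
    ∀ᵐ t : ℝ, ∀ j, HasDerivAt (E j) (-(κ j t * E j t)) t

/-- `RA-FTC`: the integral of the logarithmic derivative -/
def StFTC : Prop :=
  ∀ (f κ : ℝ → ℝ) (K : ℝ), (∀ t, 0 < f t) → (∀ s t, f s ≤ Real.exp (K * |s - t|) * f t) →
    (∀ᵐ t : ℝ, HasDerivAt f (-(κ t * f t)) t) →
    (∀ᵐ t : ℝ, |κ t| ≤ K) ∧ AEMeasurable κ volume ∧
    ∀ α β : ℝ, α ≤ β → ∫ t in α..β, κ t = Real.log (f α) - Real.log (f β)

/-- `RA-DENS`: from intervals to integrable functions -/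
def StDens : Prop :=
  ∀ (κ : ℕ → ℝ → ℝ) (κ' : ℝ → ℝ) (K : ℝ), (∀ j, AEMeasurable (κ j) volume) →
    AEMeasurable κ' volume → (∀ j, ∀ᵐ t : ℝ, |κ j t| ≤ K) → (∀ᵐ t : ℝ, |κ' t| ≤ K) →
    (∀ α β : ℝ, α ≤ β → Tendsto (fun j => ∫ t in α..β, κ j t) atTop (𝓝 (∫ t in α..β, κ' t))) →
    ∀ χ : ℝ → ℝ, Integrable χ volume →
      Tendsto (fun j => ∫ t, χ t * κ j t) atTop (𝓝 (∫ t, χ t * κ' t))

/-! ### Quasi-invariant measures -/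

/-- a measurable flow under which `P` is quasi-invariant -/
structure Flw {Ω : Type} [MeasurableSpace Ω] (P : Measure Ω) (θ : ℝ → Ω → Ω) : Prop where
  meas : Measurable fun p : ℝ × Ω => θ p.1 p.2
  zero : ∀ o, θ 0 o = o
  add : ∀ s t o, θ (s + t) o = θ s (θ t o)
  ac : ∀ t, P.map (θ t) ≪ P

/-- `QI-N`: sets which are null on every orbit are null -/
def StQN : Prop :=
  ∀ (Ω : Type) [MeasurableSpace Ω] (P : Measure Ω) [IsProbabilityMeasure P] (θ : ℝ → Ω → Ω),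
    Flw P θ → ∀ N : Set Ω, MeasurableSet N → (∀ o, ∀ᵐ t : ℝ, θ t o ∉ N) → P N = 0

/-- `QI-W`: weak convergence along all orbits implies weak convergence -/
def StQW : Prop :=
  ∀ (Ω : Type) [MeasurableSpace Ω] (P : Measure Ω) [IsProbabilityMeasure P] (θ : ℝ → Ω → Ω),
    Flw P θ → ∀ (X : ℕ → Ω → ℝ) (Y : Ω → ℝ) (K : ℝ), (∀ j, Measurable (X j)) → Measurable Y →
    (∀ j o, |X j o| ≤ K) → (∀ o, |Y o| ≤ K) →
    (∀ o, ∀ χ : ℝ → ℝ, Integrable χ volume →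
      Tendsto (fun j => ∫ t, χ t * X j (θ t o)) atTop (𝓝 (∫ t, χ t * Y (θ t o)))) →
    ∀ χ : Ω → ℝ, Integrable χ P →
      Tendsto (fun j => ∫ o, χ o * X j o ∂P) atTop (𝓝 (∫ o, χ o * Y o ∂P))

/-- `QI-L`: limits along a sequence of indices -/
def StQL : Prop :=
  ∀ (Ω : Type) [MeasurableSpace Ω] (P : Measure Ω) [IsProbabilityMeasure P] (X : ℕ → Ω → ℝ)
    (Y : Ω → ℝ) (K : ℝ), (∀ j, AEStronglyMeasurable (X j) P) → AEStronglyMeasurable Y P →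
    (∀ j, ∀ᵐ o ∂P, |X j o| ≤ K) → (∀ᵐ o ∂P, |Y o| ≤ K) →
    (∀ χ : Ω → ℝ, Integrable χ P →
      Tendsto (fun j => ∫ o, χ o * X j o ∂P) atTop (𝓝 (∫ o, χ o * Y o ∂P))) →
    ∀ J : ℕ → ℕ, Tendsto J atTop atTop →
      ∀ᵐ o ∂P, ∀ L : ℝ, Tendsto (fun k => X (J k) o) atTop (𝓝 L) → L = Y o

/-! ### Forms -/

section forms

variable {M : Type} [TopologicalSpace M] [MeasurableSpace M] {H : Type} [NormedAddCommGroup H]
  [InnerProductSpace ℝ H]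

/-- what is needed of the form domain of a surface: `a` is the Dirichlet form and `i` the inclusion
in `L²` -/
structure Sf (μ : Measure M) (i : H →L[ℝ] Lp ℝ 2 μ) (a : H →L[ℝ] H →L[ℝ] ℝ) : Prop where
  sa : ∀ u v, a u v = a v u
  na : ∀ v, 0 ≤ a v v
  nm : ∀ v, ‖v‖ ^ 2 = a v v + ‖i v‖ ^ 2
  wy : ∃ C : ℝ, ∀ ε : ℝ, 0 < ε → ε ≤ 1 → ∃ (N : ℕ) (l : Fin N → H →L[ℝ] ℝ), (N : ℝ) ≤ C / ε ∧
    ∀ v, ‖i v‖ ^ 2 ≤ ε * a v v + ∑ j, (l j v) ^ 2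
  inf : ∃ e : ℕ → H, ∀ m m', inner ℝ (i (e m)) (i (e m')) = if m = m' then (1 : ℝ) else 0

/-- the form of the metric `exp φ · g` on `L²` -/
def IsB (μ : Measure M) (i : H →L[ℝ] Lp ℝ 2 μ) (b : C(M, ℝ) → H →L[ℝ] H →L[ℝ] ℝ) : Prop :=
  ∀ (φ : C(M, ℝ)) (u v : H), b φ u v = ∫ x, Real.exp (φ x) * (i u x * i v x) ∂μ

/-- the mass of `f` for the vector `v` and the metric `exp φ · g` -/
def kap (μ : Measure M) (i : H →L[ℝ] Lp ℝ 2 μ) (f φ : C(M, ℝ)) (v : H) : ℝ :=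
  ∫ x, f x * (Real.exp (φ x) * (i v x) ^ 2) ∂μ

/-- the mean value of `f` for the metric `exp φ · g` -/
def avg (μ : Measure M) (f φ : C(M, ℝ)) : ℝ :=
  (∫ x, f x * Real.exp (φ x) ∂μ) / ∫ x, Real.exp (φ x) ∂μ

/-- Weyl's law -/
def Wl (μ : Measure M) (a : H →L[ℝ] H →L[ℝ] ℝ) (b : C(M, ℝ) → H →L[ℝ] H →L[ℝ] ℝ) : Prop :=
  ∀ φ : C(M, ℝ), Tendsto (fun j : ℕ => Ev a (b φ) j / (j + 1)) atTop
    (𝓝 (4 * π / ∫ x, Real.exp (φ x) ∂μ))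

end forms

/-- `AB-FM`: the forms -/
def StFm : Prop :=
  ∀ (M : Type) [MetricSpace M] [CompactSpace M] [MeasurableSpace M] [BorelSpace M] (μ : Measure M)
    [IsFiniteMeasure μ] (H : Type) [NormedAddCommGroup H] [InnerProductSpace ℝ H]
    (i : H →L[ℝ] Lp ℝ 2 μ) (a : H →L[ℝ] H →L[ℝ] ℝ), Sf μ i a →
    ∃ b : C(M, ℝ) → H →L[ℝ] H →L[ℝ] ℝ, IsB μ i b ∧ (∀ φ, Fm a (b φ)) ∧
      (∀ φ : C(M, ℝ), 0 < ∫ x, Real.exp (φ x) ∂μ) ∧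
      (∀ (φ ψ : C(M, ℝ)) (v : H), b φ v v ≤ Real.exp ‖φ - ψ‖ * b ψ v v) ∧
      ∀ h : C(M, ℝ), ∃ k : C(M, ℝ) → H →L[ℝ] H →L[ℝ] ℝ, (∀ φ u v, k φ u v = k φ v u) ∧
        (∀ φ v, k φ v v = kap μ i h φ v ∧ |k φ v v| ≤ ‖h‖ * b φ v v) ∧
        ∀ φ v (τ : ℝ), b φ v v + τ * k φ v v ≤ b (φ + τ • h) v v

/-- `AB-LIP`: the eigenvalues depend continuously on the metric -/
def StLip : Prop :=
  ∀ (M : Type) [MetricSpace M] [CompactSpace M] [MeasurableSpace M] [BorelSpace M] (μ : Measure M)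
    [IsFiniteMeasure μ] (H : Type) [NormedAddCommGroup H] [InnerProductSpace ℝ H]
    (a : H →L[ℝ] H →L[ℝ] ℝ) (b : C(M, ℝ) → H →L[ℝ] H →L[ℝ] ℝ), (∀ φ, Fm a (b φ)) →
    (∀ (φ ψ : C(M, ℝ)) (v : H), b φ v v ≤ Real.exp ‖φ - ψ‖ * b ψ v v) →
    (∀ φ j, 0 ≤ Ev a (b φ) j) ∧ (∀ φ i j, i ≤ j → Ev a (b φ) i ≤ Ev a (b φ) j) ∧
    (∀ φ ψ j, Ev a (b φ) j ≤ Real.exp ‖φ - ψ‖ * Ev a (b ψ) j) ∧
    (∀ j, Continuous fun φ => Ev a (b φ) j) ∧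
    ∀ j, (∀ φ, Ev a (b φ) j = 0) ∨ ∀ φ, 0 < Ev a (b φ) j

/-- `AB-DER`: the one-sided derivatives of an eigenvalue at the bottom of its cluster -/
def StDer0 : Prop :=
  ∀ (H : Type) [NormedAddCommGroup H] [InnerProductSpace ℝ H] (a b : H →L[ℝ] H →L[ℝ] ℝ), Fm a b →
    ∀ (e : ℕ → H) (E : ℕ → ℝ), Eg a b e E → ∀ (k : H →L[ℝ] H →L[ℝ] ℝ) (K : ℝ),
    (∀ u v, k u v = k v u) → (∀ v, |k v v| ≤ K * b v v) → ∀ (i j : ℕ), E i = E j →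
    (∀ l, l < i → E l < E i) → ∀ ε : ℝ, 0 < ε →
    ∃ δ : ℝ, 0 < δ ∧ ∀ τ : ℝ, |τ| < δ → ∀ b' : H →L[ℝ] H →L[ℝ] ℝ,
      (∀ v, b v v + τ * k v v ≤ b' v v) → Ev a b' i ≤ E i * (1 - k (e j) (e j) * τ) + ε * |τ|

/-- `AB-ONE`: one parameter -/
def StOneP : Prop :=
  ∀ (M : Type) [MetricSpace M] [CompactSpace M] [MeasurableSpace M] [BorelSpace M] (μ : Measure M)
    [IsFiniteMeasure μ] (H : Type) [NormedAddCommGroup H] [InnerProductSpace ℝ H]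
    (i : H →L[ℝ] Lp ℝ 2 μ) (a : H →L[ℝ] H →L[ℝ] ℝ) (b : C(M, ℝ) → H →L[ℝ] H →L[ℝ] ℝ),
    Sf μ i a → IsB μ i b → Wl μ a b → ∀ (φ h : C(M, ℝ)) (e : ℝ → ℕ → H) (E : ℝ → ℕ → ℝ),
    (∀ t, Eg a (b (φ + t • h)) (e t) (E t)) →
    (∀ᵐ t : ℝ, ∀ j, HasDerivAt (fun s : ℝ => Ev a (b (φ + s • h)) j)
      (-(kap μ i h (φ + t • h) (e t j) * Ev a (b (φ + t • h)) j)) t) ∧
    ∀ χ : ℝ → ℝ, Integrable χ volume →
      Tendsto (fun j => ∫ t, χ t * kap μ i h (φ + t • h) (e t j)) atTop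
        (𝓝 (∫ t, χ t * avg μ h (φ + t • h)))

/-- `AB-CM`: measurable functions on `C(M, ℝ)`, translations as a flow -/
def StCM : Prop :=
  ∀ (M : Type) [MetricSpace M] [CompactSpace M] [MeasurableSpace M] [BorelSpace M] (μ : Measure M)
    [IsFiniteMeasure μ] [MeasurableSpace C(M, ℝ)] [BorelSpace C(M, ℝ)],
    (∀ F : C(M, ℝ) → ℝ, Continuous F → ∀ h : C(M, ℝ),
      Measurable (fun φ => deriv (fun t : ℝ => F (φ + t • h)) 0) ∧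
      MeasurableSet {φ | DifferentiableAt ℝ (fun t : ℝ => F (φ + t • h)) 0}) ∧
    (∀ f : C(M, ℝ), Continuous fun φ => avg μ f φ) ∧
    (∀ f φ : C(M, ℝ), |avg μ f φ| ≤ ‖f‖) ∧
    ∀ (P : Measure C(M, ℝ)) (h : C(M, ℝ)), (∀ t : ℝ, P.map (fun φ => φ + t • h) ≪ P) →
      Flw P fun (t : ℝ) φ => φ + t • h

/-- `AB-DIR`: one direction -/
def StDr : Prop :=
  ∀ (M : Type) [MetricSpace M] [CompactSpace M] [MeasurableSpace M] [BorelSpace M] (μ : Measure M)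
    [IsFiniteMeasure μ] [MeasurableSpace C(M, ℝ)] [BorelSpace C(M, ℝ)] (H : Type)
    [NormedAddCommGroup H] [InnerProductSpace ℝ H]
    (i : H →L[ℝ] Lp ℝ 2 μ) (a : H →L[ℝ] H →L[ℝ] ℝ) (b : C(M, ℝ) → H →L[ℝ] H →L[ℝ] ℝ),
    Sf μ i a → IsB μ i b → Wl μ a b → ∀ (e : C(M, ℝ) → ℕ → H) (E : C(M, ℝ) → ℕ → ℝ),
    (∀ φ, Eg a (b φ) (e φ) (E φ)) → ∀ (P : Measure C(M, ℝ)) [IsProbabilityMeasure P]
    (h : C(M, ℝ)), (∀ t : ℝ, P.map (fun φ => φ + t • h) ≪ P) →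
    (∀ j, (∀ φ, 0 < Ev a (b φ) j) → AEStronglyMeasurable (fun φ => kap μ i h φ (e φ j)) P) ∧
    ∀ χ : C(M, ℝ) → ℝ, Integrable χ P →
      Tendsto (fun j => ∫ φ, χ φ * kap μ i h φ (e φ j) ∂P) atTop (𝓝 (∫ φ, χ φ * avg μ h φ ∂P))

/-- `AB-ABS`: the abstract theorem -/
def StAbs : Prop :=
  ∀ (M : Type) [MetricSpace M] [CompactSpace M] [MeasurableSpace M] [BorelSpace M] (μ : Measure M)
    [IsFiniteMeasure μ] [MeasurableSpace C(M, ℝ)] [BorelSpace C(M, ℝ)] (H : Type)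
    [NormedAddCommGroup H] [InnerProductSpace ℝ H]
    (i : H →L[ℝ] Lp ℝ 2 μ) (a : H →L[ℝ] H →L[ℝ] ℝ) (b : C(M, ℝ) → H →L[ℝ] H →L[ℝ] ℝ),
    Sf μ i a → IsB μ i b → Wl μ a b → ∀ (e : C(M, ℝ) → ℕ → H) (E : C(M, ℝ) → ℕ → ℝ),
    (∀ φ, Eg a (b φ) (e φ) (E φ)) → ∀ (P : Measure C(M, ℝ)) [IsProbabilityMeasure P]
    (S : Set C(M, ℝ)), Dense (Submodule.span ℝ S : Set C(M, ℝ)) →
    (∀ h ∈ S, ∀ t : ℝ, P.map (fun φ => φ + t • h) ≪ P) →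
    (∃ J : ℕ, ∀ f j, J ≤ j → AEStronglyMeasurable (fun φ => kap μ i f φ (e φ j)) P) ∧
    ∀ f : C(M, ℝ), (∀ χ : C(M, ℝ) → ℝ, Integrable χ P →
      Tendsto (fun j => ∫ φ, χ φ * kap μ i f φ (e φ j) ∂P) atTop
        (𝓝 (∫ φ, χ φ * avg μ f φ ∂P))) ∧
    ∀ J : ℕ → ℕ, Tendsto J atTop atTop → ∀ᵐ φ ∂P, ∀ L : ℝ,
      Tendsto (fun k => kap μ i f φ (e φ (J k))) atTop (𝓝 L) → L = avg μ f φ

end Pool.Agent.Y264.QR
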