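import Pool.Agent.Y264.QR.Stm

/-!
# Project QR: statements, part two: Weyl's law on closed surfaces, and the form domain
-/

set_option autoImplicit false

open Set Filter Topology MeasureTheory
open scoped Real ContDiff
open Pool.Agent.Y262.QE

noncomputable section

namespace Pool.Agent.Y264.QR

/-! ### Squares in the plane -/

/-- the number of lattice points of the closed quadrant in the open disc with the square of the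
radius `R` -/
def cN (R : ℝ) : ℕ := Nat.card {p : ℕ × ℕ // (p.1 : ℝ) ^ 2 + (p.2 : ℝ) ^ 2 < R}

/-- the number of lattice points of the open quadrant in the closed disc -/
def cD (R : ℝ) : ℕ := Nat.card {p : ℕ × ℕ // ((p.1 : ℝ) + 1) ^ 2 + ((p.2 : ℝ) + 1) ^ 2 ≤ R}

/-- `W-LAT` -/
def StLat : Prop :=
  Tendsto (fun R : ℝ => (cN R : ℝ) / R) atTop (𝓝 (π / 4)) ∧
    Tendsto (fun R : ℝ => (cD R : ℝ) / R) atTop (𝓝 (π / 4))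

/-- the orthonormal cosines on `[0, 1]` -/
def ck (k : ℕ) (x : ℝ) : ℝ := if k = 0 then 1 else Real.sqrt 2 * Real.cos (k * π * x)

/-- `W-COS`: Parseval's formula and the derivative -/
def StCos : Prop :=
  (∀ f : ℝ → ℝ, ContinuousOn f (Icc 0 1) →
    HasSum (fun k => (∫ x in (0 : ℝ)..1, f x * ck k x) ^ 2) (∫ x in (0 : ℝ)..1, (f x) ^ 2)) ∧
  ∀ f f' : ℝ → ℝ, (∀ x ∈ Icc (0 : ℝ) 1, HasDerivWithinAt f (f' x) (Icc 0 1) x) →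
    ContinuousOn f' (Icc 0 1) →
    HasSum (fun k : ℕ => (π * k) ^ 2 * (∫ x in (0 : ℝ)..1, f x * ck k x) ^ 2)
      (∫ x in (0 : ℝ)..1, (f' x) ^ 2)

/-- `W-NEU`: the sharp spectral inequality on a square -/
def StNeu : Prop :=
  ∀ r Λ : ℝ, 0 < r → 0 < Λ → ∃ κ : Fin (cN (4 * r ^ 2 * Λ / π ^ 2)) → ℂ → ℝ,
    (∀ i, Measurable (κ i)) ∧ (∀ i, ∃ C, ∀ z, |κ i z| ≤ C) ∧
    ∀ (O : Set ℂ) (f : ℂ → ℝ), IsOpen O → Sq 0 r ⊆ O → ContDiffOn ℝ 1 f O →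
      ∫ z in Sq 0 r, (f z) ^ 2 ≤ Λ⁻¹ * (∫ z in Sq 0 r, ‖fderiv ℝ f z‖ ^ 2) +
        ∑ i, (∫ z in Sq 0 r, f z * κ i z) ^ 2

/-- `W-DIR1`: approximation of the sines by functions with compact support -/
def StDir1 : Prop :=
  ∀ (K : ℕ) (ε : ℝ), 0 < ε → ∃ g : Fin K → ℝ → ℝ,
    (∀ k, ContDiff ℝ 1 (g k) ∧ tsupport (g k) ⊆ Ioo 0 1) ∧
    ∀ k l, |(∫ x, g k x * g l x) - if k = l then 1 else 0| ≤ ε ∧
      |(∫ x, deriv (g k) x * deriv (g l) x) -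
        if k = l then (π * ((k : ℕ) + 1)) ^ 2 else 0| ≤ ε

/-- `W-DIR`: test functions on a square -/
def StDir : Prop :=
  ∀ r Λ ε : ℝ, 0 < r → 0 < Λ → 0 < ε →
    ∃ F : Fin (cD (4 * r ^ 2 * Λ / π ^ 2)) → ℂ → ℝ,
    (∀ k, ContDiff ℝ 1 (F k) ∧ tsupport (F k) ⊆ interior (Sq 0 r)) ∧
    ∀ c : Fin (cD (4 * r ^ 2 * Λ / π ^ 2)) → ℝ,
      1 / 2 * ∑ k, (c k) ^ 2 ≤ ∫ z, (∑ k, c k * F k z) ^ 2 ∧
      ∫ z, ‖∑ k, c k • fderiv ℝ (F k) z‖ ^ 2 ≤ (1 + ε) * Λ * ∫ z, (∑ k, c k * F k z) ^ 2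

/-! ### Almost isometric squares on a surface -/

/-- an almost isometric image of the square with the side `2 r` -/
structure Pt {M : Type} [TopologicalSpace M] [MeasurableSpace M] (D : Data M) (μ : Measure M)
    (η r : ℝ) (Φ : ℂ → M) : Prop where
  cont : ContinuousOn Φ (Sq 0 r)
  inj : InjOn Φ (Sq 0 r)
  opn : IsOpen (Φ '' interior (Sq 0 r))
  bdr : μ (Φ '' (Sq 0 r \ interior (Sq 0 r))) = 0
  int : ∀ g : M → ENNReal, Measurable g →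
    (∫⁻ x in Φ '' Sq 0 r, g x ∂μ) ≤ ENNReal.ofReal (1 + η) * ∫⁻ y in Sq 0 r, g (Φ y) ∧
    (∫⁻ y in Sq 0 r, g (Φ y)) ≤ ENNReal.ofReal (1 + η) * ∫⁻ x in Φ '' Sq 0 r, g x ∂μ
  fct : ∀ κ : ℂ → ℝ, Measurable κ → (∃ C, ∀ z, |κ z| ≤ C) → ∃ κ' : M → ℝ, MemLp κ' 2 μ ∧
    ∀ F : M → ℝ, Continuous F → ∫ x, F x * κ' x ∂μ = ∫ y in Sq 0 r, F (Φ y) * κ y
  grad : ∃ O : Set ℂ, IsOpen O ∧ Sq 0 r ⊆ O ∧ ∀ F : M → ℝ, D.C1 F →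
    ContDiffOn ℝ 1 (fun y => F (Φ y)) O ∧ ∀ y ∈ O,
      ‖fderiv ℝ (fun y => F (Φ y)) y‖ ≤ (1 + η) * ‖D.gr F (Φ y)‖ ∧
      ‖D.gr F (Φ y)‖ ≤ (1 + η) * ‖fderiv ℝ (fun y => F (Φ y)) y‖
  lift : ∀ f : ℂ → ℝ, ContDiff ℝ 1 f → tsupport f ⊆ interior (Sq 0 r) → ∃ F : M → ℝ, D.C1 F ∧
    (∀ y ∈ Sq 0 r, F (Φ y) = f y) ∧ ∀ x, x ∉ Φ '' Sq 0 r → F x = 0

/-- `W-LOC`: small parallelograms are almost isometric squares -/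
def StLoc : Prop :=
  ∀ (M : Type) [MetricSpace M] [CompactSpace M] [MeasurableSpace M] [BorelSpace M] (μ : Measure M)
    (D : Data M), D.IsSurf μ → ∀ i, ∀ z ∈ D.T i, ∀ η : ℝ, 0 < η → ∃ r₀ : ℝ, 0 < r₀ ∧
    ∀ r : ℝ, 0 < r → r < r₀ → (∀ y ∈ Sq 0 r, z + (D.A i z).inverse y ∈ D.T i) ∧
      Pt D μ η r fun y => D.ψ i (z + (D.A i z).inverse y)

/-- `W-COV`: a surface is covered by disjoint almost isometric squares up to a small set -/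
def StCov : Prop :=
  ∀ (M : Type) [MetricSpace M] [CompactSpace M] [MeasurableSpace M] [BorelSpace M] (μ : Measure M)
    (D : Data M), D.IsSurf μ → ∀ (φ : C(M, ℝ)) (η : ℝ), 0 < η →
    ∃ (n : ℕ) (r : Fin n → ℝ) (Φ : Fin n → ℂ → M) (R : Set M),
      (∀ k, 0 < r k ∧ Pt D μ η (r k) (Φ k)) ∧
      (∀ k l, k ≠ l → Disjoint (Φ k '' Sq 0 (r k)) (Φ l '' Sq 0 (r l))) ∧
      (∀ k, ∀ y ∈ Sq 0 (r k), |φ (Φ k y) - φ (Φ k 0)| ≤ η) ∧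
      IsClosed R ∧ (∀ x, x ∈ R ∨ ∃ k, x ∈ Φ k '' Sq 0 (r k)) ∧ μ R < ENNReal.ofReal η

/-- `W-LEFT`: the spectral inequality on a small closed set -/
def StLeft : Prop :=
  ∀ (M : Type) [MetricSpace M] [CompactSpace M] [MeasurableSpace M] [BorelSpace M] (μ : Measure M)
    (D : Data M), D.IsSurf μ → ∃ C : ℝ, 0 < C ∧ ∀ R : Set M, IsClosed R → ∀ δ : ℝ, 0 < δ →
    μ R < ENNReal.ofReal δ → ∃ Λ₀ : ℝ, ∀ Λ : ℝ, Λ₀ ≤ Λ → ∃ (N : ℕ) (κ : Fin N → M → ℝ),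
      (N : ℝ) ≤ C * δ * Λ ∧ (∀ i, MemLp (κ i) 2 μ) ∧
      ∀ F, D.C1 F → ∫ x in R, (F x) ^ 2 ∂μ ≤ Λ⁻¹ * (∫ x, ‖D.gr F x‖ ^ 2 ∂μ) +
        ∑ i, (∫ x, F x * κ i x ∂μ) ^ 2

/-- `W-LO`: the sharp spectral inequality on a surface -/
def StLo : Prop :=
  ∀ (M : Type) [MetricSpace M] [CompactSpace M] [MeasurableSpace M] [BorelSpace M] (μ : Measure M)
    (D : Data M), D.IsSurf μ → Nonempty M → ∀ (φ : C(M, ℝ)) (ε : ℝ), 0 < ε →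
    ∃ Λ₀ : ℝ, ∀ Λ : ℝ, Λ₀ ≤ Λ → ∃ (N : ℕ) (κ : Fin N → M → ℝ),
      (N : ℝ) ≤ (1 + ε) * Λ * (∫ x, Real.exp (φ x) ∂μ) / (4 * π) ∧ (∀ i, MemLp (κ i) 2 μ) ∧
      ∀ F, D.C1 F → ∫ x, Real.exp (φ x) * (F x) ^ 2 ∂μ ≤
        (1 + ε) * Λ⁻¹ * (∫ x, ‖D.gr F x‖ ^ 2 ∂μ) + ∑ i, (∫ x, F x * κ i x ∂μ) ^ 2

/-- `W-UP`: test functions on a surface -/
def StUp : Prop :=
  ∀ (M : Type) [MetricSpace M] [CompactSpace M] [MeasurableSpace M] [BorelSpace M] (μ : Measure M)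
    (D : Data M), D.IsSurf μ → Nonempty M → ∀ (φ : C(M, ℝ)) (ε : ℝ), 0 < ε →
    ∃ Λ₀ : ℝ, ∀ Λ : ℝ, Λ₀ ≤ Λ → ∃ (N : ℕ) (F : Fin N → M → ℝ) (δ : ℝ),
      (1 - ε) * Λ * (∫ x, Real.exp (φ x) ∂μ) / (4 * π) ≤ (N : ℝ) ∧ (∀ i, D.C1 (F i)) ∧ 0 < δ ∧
      ∀ c : Fin N → ℝ,
        δ * ∑ i, (c i) ^ 2 ≤ ∫ x, Real.exp (φ x) * (∑ i, c i * F i x) ^ 2 ∂μ ∧
        ∫ x, ‖∑ i, c i • D.gr (F i) x‖ ^ 2 ∂μ ≤
          (1 + ε) * Λ * ∫ x, Real.exp (φ x) * (∑ i, c i * F i x) ^ 2 ∂μ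

/-! ### The form domain of a surface -/

/-- the form domain of a surface: the closure of the pairs `(F, ∇F)` -/
def HF {M : Type} [TopologicalSpace M] [MeasurableSpace M] (D : Data M) (μ : Measure M) :
    Submodule ℝ (WithLp 2 (Lp ℝ 2 μ × Lp ℂ 2 μ)) :=
  (Submodule.span ℝ {p | ∃ F : M → ℝ, D.C1 F ∧
    (p.fst : M → ℝ) =ᵐ[μ] F ∧ (p.snd : M → ℂ) =ᵐ[μ] D.gr F}).topologicalClosure

/-- `F-DEN`: approximation by `C¹` functions in the form domain -/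
def StDenF : Prop :=
  ∀ (M : Type) [MetricSpace M] [CompactSpace M] [MeasurableSpace M] [BorelSpace M] (μ : Measure M)
    (D : Data M), D.IsSurf μ →
    (∀ F, D.C1 F → ∃ v ∈ HF D μ,
      (v.fst : M → ℝ) =ᵐ[μ] F ∧ (v.snd : M → ℂ) =ᵐ[μ] D.gr F) ∧
    ∀ v ∈ HF D μ, ∃ (F : ℕ → M → ℝ) (f : ℕ → WithLp 2 (Lp ℝ 2 μ × Lp ℂ 2 μ)),
      (∀ k, D.C1 (F k) ∧ f k ∈ HF D μ ∧
        ((f k).fst : M → ℝ) =ᵐ[μ] F k ∧ ((f k).snd : M → ℂ) =ᵐ[μ] D.gr (F k)) ∧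
      Tendsto f atTop (𝓝 v)

/-- `F-PACK`: the form domain -/
def StPackF : Prop :=
  ∀ (M : Type) [MetricSpace M] [CompactSpace M] [MeasurableSpace M] [BorelSpace M] (μ : Measure M)
    (D : Data M), D.IsSurf μ → Nonempty M →
    ∃ (i : HF D μ →L[ℝ] Lp ℝ 2 μ) (a : HF D μ →L[ℝ] HF D μ →L[ℝ] ℝ), Sf μ i a ∧
      (∀ v, i v = v.1.fst) ∧ ∀ u v, a u v = inner ℝ u.1.snd v.1.snd

/-- `F-BR`: eigenfunctions of the surface are eigenvectors of the forms -/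
def StBr : Prop :=
  ∀ (M : Type) [MetricSpace M] [CompactSpace M] [MeasurableSpace M] [BorelSpace M] (μ : Measure M)
    (D : Data M), D.IsSurf μ → ∀ (i : HF D μ →L[ℝ] Lp ℝ 2 μ) (a : HF D μ →L[ℝ] HF D μ →L[ℝ] ℝ)
    (b : C(M, ℝ) → HF D μ →L[ℝ] HF D μ →L[ℝ] ℝ), Sf μ i a → (∀ v, i v = v.1.fst) →
    (∀ u v, a u v = inner ℝ u.1.snd v.1.snd) → IsB μ i b → (∀ φ, Fm a (b φ)) →
    ∀ (φ : C(M, ℝ)) (u : ℕ → M → ℝ) (lam : ℕ → ℝ),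
    EigBasis (D.conf fun x => Real.exp (φ x)) (wm μ fun x => Real.exp (φ x)) u lam →
    ∃ e : ℕ → HF D μ, (∀ j, (i (e j) : M → ℝ) =ᵐ[μ] u j) ∧ Eg a (b φ) e lam

/-- `F-WL`: Weyl's law -/
def StWl : Prop :=
  ∀ (M : Type) [MetricSpace M] [CompactSpace M] [MeasurableSpace M] [BorelSpace M] (μ : Measure M)
    (D : Data M), D.IsSurf μ → Nonempty M → ∀ (i : HF D μ →L[ℝ] Lp ℝ 2 μ)
    (a : HF D μ →L[ℝ] HF D μ →L[ℝ] ℝ) (b : C(M, ℝ) → HF D μ →L[ℝ] HF D μ →L[ℝ] ℝ), Sf μ i a →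
    (∀ v, i v = v.1.fst) → (∀ u v, a u v = inner ℝ u.1.snd v.1.snd) → IsB μ i b → Wl μ a b

/-- the theorem -/
def StTop : Prop :=
  ∀ (M : Type) [MetricSpace M] [CompactSpace M] [MeasurableSpace M] [BorelSpace M] [Nonempty M]
    (μ : Measure M) (D : Data M), D.IsSurf μ → ∀ [MeasurableSpace C(M, ℝ)] [BorelSpace C(M, ℝ)]
    (P : Measure C(M, ℝ)) [IsProbabilityMeasure P] (S : Set C(M, ℝ)),
    Dense (Submodule.span ℝ S : Set C(M, ℝ)) →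
    (∀ h ∈ S, ∀ t : ℝ, P.map (fun φ => φ + t • h) ≪ P) →
    ∀ (u : C(M, ℝ) → ℕ → M → ℝ) (lam : C(M, ℝ) → ℕ → ℝ),
    (∀ φ, EigBasis (D.conf fun x => Real.exp (φ x)) (wm μ fun x => Real.exp (φ x))
      (u φ) (lam φ)) →
    (∃ J : ℕ, ∀ (f : C(M, ℝ)) (j : ℕ), J ≤ j →
      AEStronglyMeasurable (fun φ : C(M, ℝ) =>
        ∫ x, f x * (u φ j x) ^ 2 ∂(wm μ fun x => Real.exp (φ x))) P) ∧
    ∀ f : C(M, ℝ), (∀ χ : C(M, ℝ) → ℝ, Integrable χ P →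
      Tendsto (fun j => ∫ φ, χ φ * ∫ x, f x * (u φ j x) ^ 2 ∂(wm μ fun x => Real.exp (φ x)) ∂P)
        atTop (𝓝 (∫ φ, χ φ * ((∫ x, f x ∂(wm μ fun x => Real.exp (φ x))) /
          (wm μ fun x => Real.exp (φ x)).real univ) ∂P))) ∧
    ∀ J : ℕ → ℕ, Tendsto J atTop atTop → ∀ᵐ φ ∂P, ∀ L : ℝ,
      Tendsto (fun k => ∫ x, f x * (u φ (J k) x) ^ 2 ∂(wm μ fun x => Real.exp (φ x))) atTop (𝓝 L) →
        L = (∫ x, f x ∂(wm μ fun x => Real.exp (φ x))) / (wm μ fun x => Real.exp (φ x)).real univ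

end Pool.Agent.Y264.QR
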